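import Pool.Agent.Lib.MP_ab8df0_nt.A.N3.Def

/-! Small primes. -/

namespace Pool.Agent.Lib.MP_ab8df0_nt.A.N3

open Pool.Agent.Lib.MP_ab8df0_nt.A

theorem a0 : CovA fl 30 1373170 m 2 ρ 0 (0 + 60) := covA _ _ _ _ _ _ _ _
  [(0, []),
  (0, [⟨[4, 1, 2], 1, 3, [4, 1], [3, 1, 0, 5, 0, 0, 1, 0, 0, 0, 0, 0, 0, 1]⟩, ⟨[3, 1, 0, 2, 5, 1, 3, 0, 4, 5, 2, 5], 1, 8, [6, 1, 5, 2, 0, 6, 0, 2, 0, 0, 3, 3], []⟩]),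
  (0, [⟨[3, 3], 1, 2, [8, 2], [-1, 5, 0, 5, 0, -1, 0, 0, 0, 0, 0, 1, 0, 1]⟩, ⟨[1, 5], 1, 2, [7, 6], [3, 1, 0, 0, 0, 0, 1]⟩, ⟨[4, 1], 1, 2, [2, 7], [0, -1, -6, 0, 0, 0, -1, -1, 0, 0, 0, 0, -1]⟩, ⟨[9, 4], 1, 2, [6, 8], [3, 0, -6, 0, 0, 0, 0, -1, 0, 0, 0, 0, -1]⟩, ⟨[5, 9], 1, 2, [10, 10], [1, 0, 0, 5, 5, 1, 0, 0, 0, 0, 0, 0, 0, 1, 1]⟩, ⟨[9, 0, 0, 0, 0], 1, 5, [0, 1], [0, 0, 9, 0, 0, 0, 0, 1, 0, 0, 0, 0, 1]⟩]),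
  (0, [⟨[6, 11, 5], 1, 3, [2, 0, 9], [-1, -3, -5, 5, 0, -1, -1, 0, 0, 0, 0, -1, -1, 1]⟩, ⟨[4, 10, 0, 1, 2, 3, 6, 2, 7, 6, 3, 8], 1, 6, [12, 5, 4, 11, 2, 8, 2, 8, 9, 5, 11, 5], []⟩]),
  (0, [⟨[3], 1, 1, [1], [1, 0, 0, 5, 0, 1, 0, 0, 0, 0, 0, 0, 0, 1]⟩, ⟨[12, 7], 1, 2, [2, 14], [-1, 5, 0, 0, 0, -1, 0, 0, 0, 0, 0, 1]⟩, ⟨[4, 7, 8, 14], 1, 4, [0, 11, 2], [5, 0, 0, 0, 0, -1]⟩, ⟨[9, 9, 0, 15], 1, 4, [6, 1, 16, 8], [3, -5, -5, 5, 6, 1, 0, 0, 0, 1, 1, -1, -1, 1, 1]⟩, ⟨[9, 7, 0, 12], 1, 4, [7, 9, 6, 7], [3, 0, 2, 6, 0, -2, 0, -1, 1, 0, 1, 0, 0, 1]⟩]),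
  (0, [⟨[15, 4, 13], 1, 3, [4, 7, 5], [1, -5, 0, 5, 11, 1, 0, 0, 0, 1, 0, -1, 0, 1, 2]⟩, ⟨[3, 7, 9, 2, 1, 14], 1, 5, [8, 15, 0, 0, 10, 17], []⟩, ⟨[3, 15, 2, 16, 18, 11], 1, 5, [10, 7, 15, 13, 5, 4], []⟩]),
  (0, [⟨[20], 1, 1, [1], [-3, 0, -5, 0, 0, -1, 0, 0, 0, 0, -1, 0, -1]⟩, ⟨[2, 5], 1, 2, [12, 9], [5, 0, 0, 1, 0, 0, 0, 0, 1, 0, 1]⟩, ⟨[19, 3, 15, 8], 1, 4, [12, 22, 3], [-3, -5, 0, 0, 1, 2, 0, 0, 0, 1, -1, -1]⟩, ⟨[19, 7, 15, 10], 1, 4, [16, 19, 5, 7], [3, 1, 0, 3, 5, 1, 1, 0, 0, 0, 1, 0, 0, 0, 1]⟩, ⟨[11, 4, 14, 3], 1, 4, [0, 5, 17], [-7, 0, 0, 0, 0, 0, 0, 0, 0, 0, -2]⟩]),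
  (0, [⟨[12], 1, 1, [1], [0, 0, 5, 0, 5, 0, 0, 0, 0, 0, 0, 0, 1, 0, 1]⟩, ⟨[1, 15], 1, 2, [24, 20], [1, 1, -6, 10, 0, 1, 1, -1, 0, 0, 0, 0, -1, 2]⟩, ⟨[1, 2], 1, 2, [22, 7], [-1, 3, 1, 0, 0, -1, 0, 1]⟩, ⟨[24, 0, 0, 0, 0, 17, 0, 0, 0, 0], 1, 5, [2, 28, 28, 0, 17, 13, 6, 26, 0, 21], []⟩]),
  (0, [⟨[8, 0, 0, 0, 0], 1, 5, [0, 7], []⟩, ⟨[12, 0, 0, 0, 0], 1, 5, [0, 15], []⟩, ⟨[11, 0, 0, 0, 0], 1, 5, [0, 22], []⟩]),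
  (0, [⟨[24, 14, 4], 1, 3, [24, 27, 6], [-1, 10, 0, 6, 0, 2, 0, 0, 1, 0, 0, 2, 0, 1]⟩, ⟨[3, 26, 9, 26, 6, 19, 26, 22, 16, 22, 7, 33], 1, 4, [10, 25, 7, 12, 12, 33, 13, 4, 17, 7, 25, 20], []⟩]),
  (0, [⟨[20, 0, 0, 0, 0], 1, 4, [0, 0, 21], []⟩, ⟨[4, 0, 0, 0, 0, 21, 0, 0, 0, 0], 1, 4, [0, 0, 34, 0, 0, 0, 0, 23], []⟩]),
  (0, [⟨[21], 1, 1, [1], [1, 5, -5, 0, 0, 1, 0, 0, 0, 0, 0, 1, -1]⟩, ⟨[6], 1, 1, [1], [0, 5, 0, 0, -5, 0, 0, 0, 0, 0, 0, 1, 0, 0, -1]⟩, ⟨[26], 1, 1, [1], [-1, 0, 5, 0, 0, -1, 0, 0, 0, 0, 0, 0, 1]⟩, ⟨[37, 42, 7, 37], 1, 4, [0, 33, 16], []⟩, ⟨[28, 11, 12, 17], 1, 4, [0, 39, 20], []⟩, ⟨[8, 27, 32, 22], 1, 4, [0, 29, 15], []⟩]),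
  (0, [⟨[33], 1, 1, [1], [-1, 0, -6, 0, 0, -1, 0, -1, 0, 0, 0, 0, -1]⟩, ⟨[2, 12], 1, 2, [31, 34], [1, 0, 0, -1, 6, 1, 0, 0, -1, 1, 0, 0, 0, 0, 1]⟩, ⟨[43, 26, 38, 1], 1, 4, [17, 41, 20, 18], []⟩, ⟨[30, 18, 39, 14], 1, 4, [0, 26, 22], []⟩, ⟨[43, 45, 38, 34], 1, 4, [24, 8, 12, 43], []⟩]),
  (7, []),
  (0, [⟨[35], 1, 1, [1], [1, 0, 0, 0, 5, 1, 0, 0, 0, 0, 0, 0, 0, 0, 1]⟩, ⟨[38, 39], 1, 2, [49, 7], [5, 3, -6, 0, 0, 0, 0, -1, 0, 0, 1, 0, -1]⟩, ⟨[17, 2, 47, 18], 1, 4, [0, 48, 38], []⟩, ⟨[40, 13, 8, 52], 1, 4, [23, 37, 5, 43], []⟩, ⟨[40, 38, 8, 15], 1, 4, [22, 41, 47, 45], []⟩]),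
  (0, [⟨[9], 1, 1, [1], [1, 0, 5, 0, 0, 1, 0, 0, 0, 0, 0, 0, 1]⟩, ⟨[37, 2], 1, 2, [7, 52], [0, 1, 10, -5, 0, 0, 1, 0, 0, 0, 0, 0, 2, -1]⟩, ⟨[37, 48], 1, 2, [39, 50], [1, -3, -5, 0, 0, 1, -1, 0, 0, 0, 0, -1, -1]⟩, ⟨[12, 0, 0, 0, 0, 10, 0, 0, 0, 0], 1, 4, [2, 54, 23, 13, 0, 7, 48, 57, 40], []⟩])] (by decide +kernel)

theorem a1 : CovA fl 30 1373170 m 2 ρ 60 (60 + 140) := covA _ _ _ _ _ _ _ _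
  [(0, [⟨[2, 0, 0, 0, 0, 55, 0, 0, 0, 0, 0, 0, 0, 0, 0], 1, 4, [0, 0, 60, 0, 0, 0, 0, 17, 0, 0, 0, 0, 32], []⟩]),
  (0, [⟨[41, 32, 12], 1, 3, [32, 11, 44], [-5, -1, 10, -1, 6, 0, -1, 0, -1, 1, -1, 0, 2, 0, 1]⟩, ⟨[31, 33, 24, 41, 1, 19, 30, 7, 14, 9, 25, 55], 1, 4, [57, 39, 35, 35, 59, 7, 62, 37, 9, 5, 61, 32], []⟩]),
  (0, [⟨[9, 0, 0, 0, 0], 1, 4, [0, 0, 47], []⟩, ⟨[55, 0, 0, 0, 0, 62, 0, 0, 0, 0], 1, 4, [0, 0, 44, 0, 0, 0, 0, 65], []⟩]),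
  (0, [⟨[4, 17, 23], 1, 3, [35, 71, 48], [-7, 5, -3, 6, 0, -2, 0, -1, 1, 0, -1, 1, -1, 1]⟩, ⟨[36, 66, 60, 68, 3, 69, 35, 21, 37, 41, 38, 50], 1, 4, [37, 49, 46, 38, 60, 40, 2, 15, 51, 25, 53, 41], []⟩]),
  (7, []),
  (0, [⟨[19, 5, 61], 1, 3, [62, 26, 42], [3, -3, -3, 6, 1, 1, -1, 0, 1, 1, 1, -1, 0, 1]⟩, ⟨[34, 10, 64, 65, 0, 31], 1, 4, [58, 52, 38, 52, 73, 66], []⟩, ⟨[34, 6, 18, 63, 58, 66], 1, 4, [68, 76, 2, 22, 68, 64], []⟩]),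
  (0, [⟨[19], 1, 1, [1], [0, 1, -5, 0, 5, 0, 1, 0, 0, 0, 0, 0, -1, 0, 1]⟩, ⟨[5, 45], 1, 2, [40, 72], [3, 5, -3, 0, 0, 0, 0, -1, 0, 0, 0, 1, -1]⟩, ⟨[58, 81, 35, 21], 1, 4, [79, 48, 59, 25], []⟩, ⟨[72, 30, 54, 64], 1, 4, [0, 80, 22], []⟩, ⟨[58, 61, 35, 17], 1, 4, [71, 36, 81, 43], []⟩]),
  (0, [⟨[74], 1, 1, [1], [1, 5, 0, 0, 0, 1, 0, 0, 0, 0, 0, 1]⟩, ⟨[42, 43], 1, 2, [49, 6], [1, -3, 3, 0, 11, 1, 0, 0, 0, 1, 0, 0, 0, 0, 2]⟩, ⟨[42, 61], 1, 2, [34, 66], [-3, 1, -6, -5, -5, 0, 1, -1, 0, 0, 0, 0, -1, -1, -1]⟩, ⟨[66, 0, 0, 0, 0, 27, 0, 0, 0, 0], 1, 4, [32, 57, 24, 38, 0, 39, 65, 19, 81], []⟩]),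
  (7, []),
  (0, [⟨[65, 29, 73], 1, 3, [45, 88, 66], [4, 7, 0, 5, 5, -1, 2, 0, 0, 0, 1, 1, 0, 1, 1]⟩, ⟨[91, 37, 35, 86, 96, 0, 89, 14, 49, 19, 74, 24], 1, 4, [9, 7, 44, 83, 52, 29, 67, 77, 93, 24, 89, 23], []⟩]),
  (0, [⟨[8], 1, 1, [1], [0, 5, -5, 0, 5, 0, 0, 0, 0, 0, 0, 1, -1, 0, 1]⟩, ⟨[90], 1, 1, [1], [0, -5, -6, 0, -5, 0, 0, -1, 0, 0, 0, -1, -1, 0, -1]⟩, ⟨[53], 1, 1, [1], [3, 0, 0, 0, -5, 1, 0, 0, 0, 0, 1, 0, 0, 0, -1]⟩, ⟨[66], 1, 1, [1], [0, 0, 5, 6, 0, 0, 0, 0, 1, 0, 0, 0, 1, 1]⟩, ⟨[86], 1, 1, [1], [1, 3, 0, 0, 0, 1]⟩, ⟨[78, 0, 0, 0, 0, 57, 0, 0, 0, 0], 1, 4, [0, 0, 17, 0, 0, 0, 0, 17], []⟩]),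
  (0, [⟨[17, 8, 84], 1, 3, [18, 96, 23], [1, 0, 0, -3, -6, 1, 0, 0, -1, -1, 0, 0, 0, -1, -1]⟩, ⟨[12, 61, 15, 80, 13, 30, 96, 80, 29, 39, 43, 19], 1, 4, [10, 43, 10, 72, 41, 71, 87, 12, 47, 10, 52, 7], []⟩]),
  (0, [⟨[47], 1, 1, [1], [1, 0, 5, 5, 0, 1, 0, 0, 0, 0, 0, 0, 1, 1]⟩, ⟨[12, 49], 1, 2, [94, 18], [1, 4, 6, 0, 0, 1, 1, 1, 0, 0, 0, 0, 1]⟩, ⟨[70, 0, 24, 58], 1, 4, [66, 4, 11, 21], []⟩, ⟨[70, 53, 24, 0], 1, 4, [56, 58, 67, 82], []⟩, ⟨[54, 74, 38, 60], 1, 4, [0, 21, 102], []⟩]),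
  (0, [⟨[52], 1, 1, [1], [1, 0, 0, -5, 5, 1, 0, 0, 0, 0, 0, 0, 0, -1, 1]⟩, ⟨[104], 1, 1, [1], [3, 0, 0, -5, 0, 0, 0, 0, 0, 0, 0, 0, 0, -1]⟩, ⟨[28], 1, 1, [1], [1, 0, 0, 6, 0, 1, 0, 0, 1, 0, 0, 0, 0, 1]⟩, ⟨[21, 84], 1, 2, [59, 105], [0, 6, 1, -6, 6, 0, 1, 1, -1, 1, 0, 1, 0, -1, 1]⟩, ⟨[88, 19], 1, 2, [89, 48], [0, 1, 5, 11, -5, 0, 1, 0, 1, 0, 0, 0, 1, 2, -1]⟩, ⟨[88, 62], 1, 2, [94, 4], [-4, 1, 3, 0, 0, -2, 1, 0, 0, 0, -1]⟩, ⟨[21, 82], 1, 2, [6, 61], [6, 0, -1, 6, 5, 1, 0, -1, 1, 0, 1, 0, 0, 1, 1]⟩, ⟨[84, 59], 1, 2, [84, 108], [3, 0, 0, 5, 10, 0, 0, 0, 0, 0, 0, 0, 0, 1, 2]⟩, ⟨[84, 55], 1, 2, [3, 97], [0, 9, 1, 0, -5, 0, 1, 1, 0, 0, 0, 1, 0, 0, -1]⟩]),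
  (0, [⟨[108], 1, 1, [1], [-5, -1, 0, 0, -5, 0, -1, 0, 0, 0, -1, 0, 0, 0, -1]⟩, ⟨[21, 47], 1, 2, [111, 65], [-1, 1, -6, 0, -5, -1, 1, -1, 0, 0, 0, 0, -1, 0, -1]⟩, ⟨[11, 84, 101, 70], 1, 3, [98, 32, 83, 57], []⟩, ⟨[11, 112, 101, 109], 1, 3, [106, 107, 16, 82], []⟩, ⟨[53, 12, 88, 5], 1, 3, [66, 32, 0, 40], []⟩]),
  (7, []),
  (11, []),
  (0, [⟨[88], 1, 1, [1], [1, 0, 5, 0, 5, 1, 0, 0, 0, 0, 0, 0, 1, 0, 1]⟩, ⟨[9], 1, 1, [1], [1, 0, -6, 0, 0, 1, 0, -1, 0, 0, 0, 0, -1]⟩, ⟨[68], 1, 1, [1], [1, 1, 0, -5, 0, 1, 1, 0, 0, 0, 0, 0, 0, -1]⟩, ⟨[43, 33, 46, 118], 1, 3, [74, 117, 26], []⟩, ⟨[118, 10, 3, 39], 1, 3, [34, 94, 31], []⟩, ⟨[90, 20, 75, 59], 1, 3, [42, 47, 35], []⟩]),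
  (0, [⟨[111, 0, 0, 0, 0], 1, 3, [0, 0, 0, 128], []⟩, ⟨[118, 0, 0, 0, 0, 20, 0, 0, 0, 0], 1, 3, [0, 0, 0, 33, 0, 0, 0, 0, 14], []⟩]),
  (7, []),
  (0, [⟨[46], 1, 1, [1], [0, 3, 6, 0, 0, 0, 0, 1, 0, 0, 0, 0, 1]⟩, ⟨[110, 32], 1, 2, [12, 102], [2, 2, 0, -5, 11, 0, -1, 0, 0, 1, 1, 0, 0, -1, 2]⟩, ⟨[93, 64, 16, 128], 1, 3, [81, 10, 3, 126], []⟩, ⟨[115, 71, 76, 91], 1, 3, [106, 22, 132], []⟩, ⟨[93, 31, 16, 114], 1, 3, [33, 23, 6, 21], []⟩]),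
  (0, [⟨[18, 26, 91], 1, 3, [74, 74, 120], []⟩, ⟨[93, 67, 102, 75, 29, 14], 1, 3, [52, 110, 127, 30, 94, 14], []⟩, ⟨[93, 123, 45, 49, 63, 34], 1, 3, [54, 42, 88, 82, 128, 51], []⟩]),
  (11, []),
  (0, [⟨[56], 1, 1, [1], [0, 5, -5, 0, -5, 0, 0, 0, 0, 0, 0, 1, -1, 0, -1]⟩, ⟨[142, 88], 1, 2, [109, 28], [-1, -3, 5, 0, 0, 2, -1, 0, 0, 0, 0, -1, 1]⟩, ⟨[142, 5], 1, 2, [48, 100], [-3, 0, 5, 1, -5, -1, 0, 0, 1, 0, -1, 0, 1, 0, -1]⟩, ⟨[24, 0, 0, 0, 0, 87, 0, 0, 0, 0], 1, 3, [128, 10, 138, 47, 43, 103, 4, 69, 70, 91], []⟩]),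
  (0, [⟨[116, 121, 60], 1, 3, [132, 98, 10], []⟩, ⟨[90, 62, 67], 1, 3, [92, 29, 137], []⟩, ⟨[25, 42, 83], 1, 3, [143, 44, 39], []⟩, ⟨[22, 34, 65], 1, 3, [150, 50, 36], []⟩, ⟨[49, 43, 27], 1, 3, [87, 81, 80], []⟩]),
  (0, [⟨[62], 1, 1, [1], [1, 0, 0, 6, 5, 1, 0, 0, 1, 0, 0, 0, 0, 1, 1]⟩, ⟨[10], 1, 1, [1], [0, 5, 0, -5, -5, 0, 0, 0, 0, 0, 0, 1, 0, -1, -1]⟩, ⟨[46], 1, 1, [1], [3, 0, -5, 0, 0, 0, 0, 0, 0, 0, 0, 0, -1]⟩, ⟨[48, 99, 57, 147], 1, 3, [27, 72, 140], []⟩, ⟨[27, 4, 82, 111], 1, 3, [36, 55, 57], []⟩, ⟨[33, 155, 81, 95], 1, 3, [19, 47, 118], []⟩]),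
  (7, []),
  (0, [⟨[114, 1, 52], 1, 3, [102, 160, 65], []⟩, ⟨[20, 37, 12, 89, 77, 89, 105, 105, 155, 6, 66, 111], 1, 3, [151, 102, 3, 55, 46, 142, 108, 153, 36, 135, 146, 3], []⟩]),
  (0, [⟨[105], 1, 1, [1], [1, 1, -5, 0, 0, 1, 1, 0, 0, 0, 0, 0, -1]⟩, ⟨[81, 75], 1, 2, [134, 61], [3, 1, -7, 6, 0, 0, 1, 1, 1, 0, 0, 0, -1, 1]⟩, ⟨[119, 142, 144, 102], 1, 3, [64, 53, 70, 82], []⟩, ⟨[119, 88, 144, 157], 1, 3, [108, 6, 24, 63], []⟩, ⟨[158, 19, 164, 62], 1, 3, [11, 109, 115], []⟩]),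
  (13, []),
  (0, [⟨[70], 1, 1, [1], [1, 1, -5, 5, 0, 1, 1, 0, 0, 0, 0, 0, -1, 1]⟩, ⟨[23, 159], 1, 2, [42, 6], [5, 5, 4, 5, -5, 0, 0, -1, 0, 0, 1, 1, 1, 1, -1]⟩, ⟨[163, 125, 81, 42], 1, 3, [9, 72, 114, 22], []⟩, ⟨[163, 72, 81, 145], 1, 3, [12, 62, 128], []⟩, ⟨[151, 59, 117, 103], 1, 3, [76, 95, 0, 2], []⟩]),
  (0, [⟨[114], 1, 1, [1], [0, 5, 0, 6, 0, 0, 0, 0, 1, 0, 0, 1, 0, 1]⟩, ⟨[71, 23], 1, 2, [15, 131], [0, 2, 5, 11, 6, 0, -1, 0, 1, 1, 0, 0, 1, 2, 1]⟩, ⟨[71, 42], 1, 2, [175, 111], [0, -6, -1, 8, 0, 0, -1, -1, 0, 0, 0, -1, 0, 1]⟩, ⟨[98, 0, 0, 0, 0, 95, 0, 0, 0, 0], 1, 3, [104, 136, 151, 6, 131, 95, 88, 84, 23, 119], []⟩]),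
  (0, [⟨[2, 0, 0, 0, 0, 175, 0, 0, 0, 0, 0, 0, 0, 0, 0], 1, 3, [0, 0, 0, 95, 0, 0, 0, 0, 142, 0, 0, 0, 0, 136], []⟩]),
  (11, []),
  (0, [⟨[94], 1, 1, [1], [-1, 1, 0, 0, -5, -1, 1, 0, 0, 0, 0, 0, 0, 0, -1]⟩, ⟨[106], 1, 1, [1], [-3, 0, 0, 0, 6, 0, 0, 0, 0, 1, 0, 0, 0, 0, 1]⟩, ⟨[22], 1, 1, [1], [2, -5, 0, 5, 0, -1, 0, 0, 0, 0, 0, -1, 0, 1]⟩, ⟨[37], 1, 1, [1], [3, 0, 0, 0, 5, 1, 0, 0, 0, 0, 1, 0, 0, 0, 1]⟩, ⟨[123], 1, 1, [1], [4, 0, 0, 5, 0, -1, 0, 0, 0, 0, 1, 0, 0, 1]⟩, ⟨[60, 0, 0, 0, 0, 121, 0, 0, 0, 0], 1, 3, [0, 0, 0, 111, 0, 0, 0, 0, 155], []⟩]),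
  (0, [⟨[83, 130, 135], 1, 3, [83, 82, 160], []⟩, ⟨[186, 97, 185, 50, 187, 135, 64, 1, 175, 125, 173, 58], 1, 3, [2, 85, 131, 69, 107, 42, 12, 19, 78, 174, 138, 125], []⟩]),
  (0, [⟨[136], 1, 1, [1], [-3, 0, -1, 0, 0, 0, 0, -1]⟩, ⟨[80, 133], 1, 2, [177, 24], [-3, 2, 8, 0, 6, -1, 0, 0, 0, 1, -1, 1, 1, 0, 1]⟩, ⟨[107, 37, 22, 61], 1, 3, [43, 82, 7], []⟩, ⟨[101, 38, 195, 30], 1, 3, [29, 100, 72, 48], []⟩, ⟨[101, 161, 195, 34], 1, 3, [22, 98, 94, 52], []⟩]),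
  (0, [⟨[45, 30, 123], 1, 3, [134, 10, 30], []⟩, ⟨[164, 36, 189, 174, 125, 140], 1, 3, [173, 160, 50, 31, 82, 35], []⟩, ⟨[164, 120, 163, 88, 34, 135], 1, 3, [145, 126, 41, 101, 183, 60], []⟩])] (by decide +kernel)

theorem a2 : CovA fl 30 1373170 m 2 ρ 200 (200 + 200) := covA _ _ _ _ _ _ _ _
  [(7, []),
  (11, []),
  (0, [⟨[2, 0, 0, 0, 0, 205, 0, 0, 0, 0, 0, 0, 0, 0, 0], 1, 3, [0, 0, 0, 178, 0, 0, 0, 0, 178, 0, 0, 0, 0, 4], []⟩]),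
  (7, []),
  (13, []),
  (0, [⟨[98], 1, 1, [1], [1, 2, 5, 0, 0, 1, -1, 0, 0, 0, 0, 0, 1]⟩, ⟨[10], 1, 1, [1], [0, 5, -1, 0, 0, 0, 0, -1, 0, 0, 0, 1]⟩, ⟨[48], 1, 1, [1], [-1, 0, 5, 0, 5, -1, 0, 0, 0, 0, 0, 0, 1, 0, 1]⟩, ⟨[221, 91, 208, 125], 1, 3, [113, 99, 0, 109], []⟩, ⟨[99, 16, 149, 175], 1, 3, [44, 131, 0, 159], []⟩, ⟨[35, 115, 123, 213], 1, 3, [95, 121, 0, 46], []⟩]),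
  (0, [⟨[128], 1, 1, [1], [-1, 1, 0, -5, 0, -1, 1, 0, 0, 0, 0, 0, 0, -1]⟩, ⟨[13, 49], 1, 2, [35, 31], [0, 6, -1, 5, 11, 0, 1, -1, 0, 1, 0, 1, 0, 1, 2]⟩, ⟨[58, 105, 57, 221], 1, 3, [82, 71, 110, 13], []⟩, ⟨[58, 78, 57, 184], 1, 3, [50, 31, 96, 161], []⟩, ⟨[216, 101, 187, 99], 1, 3, [143, 138, 66], []⟩]),
  (0, [⟨[221], 1, 1, [1], [0, -5, -1, 5, 0, 0, 0, -1, 0, 0, 0, -1, 0, 1]⟩, ⟨[102], 1, 1, [1], [3, 0, -1, 0, 0, 0, 0, -1]⟩, ⟨[47], 1, 1, [1], [2, -5, 0, -5, 0, -1, 0, 0, 0, 0, 0, -1, 0, -1]⟩, ⟨[130, 109], 1, 2, [62, 85], [-3, 0, 3, 1, -11, 0, 0, 0, 1, -1, 0, 0, 0, 0, -2]⟩, ⟨[130, 18], 1, 2, [57, 70], [-3, 2, -6, 6, 5, -1, -1, -1, 1, 0, -1, 0, -1, 1, 1]⟩, ⟨[165, 39], 1, 2, [132, 187], [-5, -1, 3, 6, 0, 0, -1, 0, 1, 0, -1, 0,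 0, 1]⟩, ⟨[165, 198], 1, 2, [11, 178], [-1, 4, 5, 0, 10, -1, -1, 0, 0, 0, 0, 1, 1, 0, 2]⟩, ⟨[81, 39], 1, 2, [3, 176], [7, 5, 0, 5, 0, 0, 0, 0, 0, 0, 2, 1, 0, 1]⟩, ⟨[81, 143], 1, 2, [36, 118], [2, 5, 5, 8, 0, 0, 0, 0, 0, 0, 1, 1, 1, 1]⟩]),
  (0, [⟨[182], 1, 1, [1], [0, -5, 0, 6, 0, 0, 0, 0, 1, 0, 0, -1, 0, 1]⟩, ⟨[184, 126], 1, 2, [93, 54], [-4, 0, 0, 1, -11, -1, 0, 0, 1, -1, 0, 0, 0, 0, -2]⟩, ⟨[162, 45, 115, 30], 1, 3, [101, 186, 69, 4], []⟩, ⟨[187, 74, 195, 51], 1, 3, [65, 17, 0, 32], []⟩, ⟨[162, 72, 115, 77], 1, 3, [179, 83, 164, 59], []⟩]),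
  (0, [⟨[144], 1, 1, [1], [1, 1, -1, -5, 0, 1, 1, -1, 0, 0, 0, 0, 0, -1]⟩, ⟨[57, 9], 1, 2, [65, 198], [-5, 0, -6, -1, 6, 0, 0, -1, -1, 1, -1, 0, -1, 0, 1]⟩, ⟨[57, 86], 1, 2, [96, 20], [0, -1, 5, 5, 16, 0, -1, 0, 0, 1, 0, 0, 1, 1, 3]⟩, ⟨[230, 0, 0, 0, 0, 106, 0, 0, 0, 0], 1, 3, [123, 86, 70, 70, 30, 195, 163, 45, 210, 88], []⟩]),
  (0, [⟨[32, 57, 122], 1, 3, [177, 39, 82], []⟩, ⟨[20, 43, 10], 1, 3, [201, 207, 145], []⟩, ⟨[53, 139, 16], 1, 3, [135, 19, 232], []⟩, ⟨[3, 126, 187], 1, 3, [235, 175, 181], []⟩, ⟨[133, 117, 147], 1, 3, [216, 42, 83], []⟩]),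
  (13, []),
  (0, [⟨[191, 0, 0, 0, 0], 1, 3, [0, 0, 0, 92], []⟩, ⟨[159, 0, 0, 0, 0, 60, 0, 0, 0, 0], 1, 3, [0, 0, 0, 247, 0, 0, 0, 0, 65], []⟩]),
  (11, []),
  (0, [⟨[244], 1, 1, [1], [5, -1, 0, 5, 0, 0, -1, 0, 0, 0, 1, 0, 0, 1]⟩, ⟨[215, 101], 1, 2, [190, 154], [1, -2, 0, 11, 6, 1, 1, 0, 1, 1, 0, 0, 0, 2, 1]⟩, ⟨[223, 141, 88, 13], 1, 3, [125, 183, 130], []⟩, ⟨[35, 60, 205, 228], 1, 3, [96, 114, 23, 11], []⟩, ⟨[35, 67, 205, 185], 1, 3, [183, 224, 224, 175], []⟩]),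
  (7, []),
  (0, [⟨[86], 1, 1, [1], [0, 5, 5, 6, 0, 0, 0, 0, 1, 0, 0, 1, 1, 1]⟩, ⟨[227, 44], 1, 2, [246, 204], [-1, -6, 0, -1, 6, -1, -1, 0, -1, 1, 0, -1, 0, 0, 1]⟩, ⟨[19, 151, 13, 76], 1, 3, [148, 148, 203, 165], []⟩, ⟨[19, 106, 13, 143], 1, 3, [201, 147, 174, 88], []⟩, ⟨[28, 141, 231, 177], 1, 3, [120, 191, 0, 59], []⟩]),
  (0, [⟨[54], 1, 1, [1], [3, 3, 0, 0, 0, 1, 0, 0, 0, 0, 1]⟩, ⟨[43, 147], 1, 2, [217, 202], [-3, 3, 1, -5, 5, 0, 0, 1, 0, 0, 0, 0, 0, -1, 1]⟩, ⟨[43, 68], 1, 2, [57, 117], [1, 1, 10, 0, 0, 1, -2, 0, 0, 0, 0, 0, 2]⟩, ⟨[206, 0, 0, 0, 0, 222, 0, 0, 0, 0], 1, 3, [10, 260, 76, 96, 251, 46, 193, 24, 40, 151], []⟩]),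
  (0, [⟨[2, 0, 0, 0, 0, 265, 0, 0, 0, 0, 0, 0, 0, 0, 0], 1, 3, [0, 0, 0, 131, 0, 0, 0, 0, 142, 0, 0, 0, 0, 13], []⟩]),
  (0, [⟨[67], 1, 1, [1], [1, 5, 0, -5, 0, 1, 0, 0, 0, 0, 0, 1, 0, -1]⟩, ⟨[51], 1, 1, [1], [-1, 5, -5, 0, 0, -1, 0, 0, 0, 0, 0, 1, -1]⟩, ⟨[188], 1, 1, [1], [1, 1, -6, 0, 0, 1, 1, -1, 0, 0, 0, 0, -1]⟩, ⟨[247, 32, 169, 226], 1, 3, [198, 116, 48], []⟩, ⟨[198, 4, 112, 89], 1, 3, [185, 97, 169], []⟩, ⟨[75, 59, 220, 210], 1, 3, [69, 77, 147], []⟩]),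
  (0, [⟨[273, 0, 0, 0, 0], 1, 3, [0, 0, 0, 239], []⟩, ⟨[211, 0, 0, 0, 0, 8, 0, 0, 0, 0], 1, 3, [0, 0, 0, 9, 0, 0, 0, 0, 38], []⟩]),
  (0, [⟨[85], 1, 1, [1], [3, 0, 0, -5, 0, 1, 0, 0, 0, 0, 1, 0, 0, -1]⟩, ⟨[53], 1, 1, [1], [5, 3, -5, 0, 0, 0, 0, 0, 0, 0, 1, 0, -1]⟩, ⟨[214], 1, 1, [1], [1, 5, 5, 0, 0, 1, 0, 0, 0, 0, 0, 1, 1]⟩, ⟨[140, 268, 133, 198], 1, 3, [20, 200, 0, 4], []⟩, ⟨[125, 264, 21, 230], 1, 3, [221, 143, 0, 20], []⟩, ⟨[47, 229, 50, 69], 1, 3, [223, 87, 0, 91], []⟩]),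
  (7, []),
  (17, []),
  (0, [⟨[16], 1, 1, [1], [4, 0, -5, -5, 0, -1, 0, 0, 0, 0, 1, 0, -1, -1]⟩, ⟨[217, 289], 1, 2, [175, 234], [-1, 1, 5, 6, 0, -1, -2, 0, 1, 0, 0, 0, 1, 1]⟩, ⟨[84, 255, 212, 151], 1, 3, [150, 160, 134, 233], []⟩, ⟨[96, 6, 37, 277], 1, 3, [19, 166, 0, 137], []⟩, ⟨[84, 49, 212, 146], 1, 3, [264, 178, 246, 257], []⟩]),
  (13, []),
  (7, []),
  (0, [⟨[184], 1, 1, [1], [1, 5, 0, 5, -5, 1, 0, 0, 0, 0, 0, 1, 0, 1, -1]⟩, ⟨[118], 1, 1, [1], [3, 0, 0, 5, -5, 0, 0, 0, 0, 0, 0, 0, 0, 1, -1]⟩, ⟨[56], 1, 1, [1], [2, 6, -1, 0, 0, -1, 1, -1, 0, 0, 0, 1]⟩, ⟨[92, 32, 198, 189], 1, 3, [178, 71, 303], []⟩, ⟨[249, 295, 241, 251], 1, 3, [80, 220, 271], []⟩, ⟨[279, 140, 221, 123], 1, 3, [297, 25, 57], []⟩]),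
  (0, [⟨[114, 0, 0, 0, 0], 1, 3, [0, 0, 0, 142], []⟩, ⟨[60, 0, 0, 0, 0, 197, 0, 0, 0, 0], 1, 3, [0, 0, 0, 284, 0, 0, 0, 0, 101], []⟩]),
  (0, [⟨[173, 136, 276], 1, 3, [118, 78, 231], []⟩, ⟨[237, 266, 198, 136, 60, 3, 156, 5, 176, 135, 60, 37], 1, 3, [24, 44, 105, 256, 120, 180, 1, 183, 226, 84, 10, 79], []⟩]),
  (0, [⟨[143], 1, 1, [1], [1, 0, -1, 0, -5, 1, 0, -1, 0, 0, 0, 0, 0, 0, -1]⟩, ⟨[44, 154], 1, 2, [256, 149], [-3, 0, 2, 6, 6, 0, 0, 0, 1, 1, 0, 0, 1, 1, 1]⟩, ⟨[73, 118, 156, 174], 1, 3, [152, 36, 251], []⟩, ⟨[283, 97, 244, 158], 1, 3, [232, 118, 197, 140], []⟩, ⟨[283, 22, 244, 5], 1, 3, [234, 219, 22, 276], []⟩]),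
  (11, []),
  (17, []),
  (7, []),
  (0, [⟨[2, 0, 0, 0, 0, 325, 0, 0, 0, 0, 0, 0, 0, 0, 0], 1, 3, [0, 0, 0, 260, 0, 0, 0, 0, 286, 0, 0, 0, 0, 164], []⟩]),
  (0, [⟨[316, 59, 304], 1, 3, [176, 26, 12], []⟩, ⟨[305, 215, 205, 31, 188, 325, 215, 293, 181, 86, 200, 33], 1, 3, [202, 281, 121, 82, 56, 10, 134, 42, 38, 240, 333, 308], []⟩]),
  (11, []),
  (7, []),
  (0, [⟨[6], 1, 1, [1], [3, 1, 0, 0, 0, 1, 1, 0, 0, 0, 1]⟩, ⟨[57, 238], 1, 2, [244, 135], [3, -1, -5, -6, 8, 1, -1, 0, -1, 0, 1, 0, -1, -1, 1]⟩, ⟨[221, 166, 93, 118], 1, 3, [238, 106, 213, 140], []⟩, ⟨[221, 214, 93, 338], 1, 3, [13, 209, 176, 184], []⟩, ⟨[92, 131, 311, 341], 1, 3, [320, 258, 86], []⟩]),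
  (0, [⟨[209, 158, 176], 1, 3, [29, 108, 289], []⟩, ⟨[293, 43, 180, 148, 343, 133], 1, 3, [242, 74, 96, 69, 144, 319], []⟩, ⟨[293, 173, 287, 229, 18, 40], 1, 3, [229, 54, 321, 239, 332, 91], []⟩]),
  (0, [⟨[314], 1, 1, [1], [3, -5, 5, -5, 0, 0, 0, 0, 0, 0, 0, -1, 1, -1]⟩, ⟨[186, 69], 1, 2, [197, 158], [5, -5, 0, 5, 3, 0, 0, 0, 0, 0, 1, -1, 0, 1]⟩, ⟨[351, 347, 329, 79], 1, 3, [245, 51, 58, 176], []⟩, ⟨[351, 132, 329, 205], 1, 3, [21, 19, 201, 302], []⟩, ⟨[121, 15, 244, 39], 1, 3, [57, 80, 0, 271], []⟩]),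
  (0, [⟨[119], 1, 1, [1], [5, -1, -1, 0, 0, 0, -1, -1, 0, 0, 1]⟩, ⟨[199, 310], 1, 2, [12, 169], [5, -5, -2, 6, 0, 0, 0, 0, 1, 0, 1, -1, -1, 1]⟩, ⟨[199, 289], 1, 2, [166, 15], [3, 5, 3, 1, -5, 0, 0, 1, 1, 0, 0, 1, 1, 0, -1]⟩, ⟨[262, 0, 0, 0, 0, 74, 0, 0, 0, 0], 1, 3, [268, 254, 346, 1, 138, 74, 206, 51, 249, 121], []⟩]),
  (19, []),
  (0, [⟨[67, 284, 343], 1, 3, [18, 67, 2], []⟩, ⟨[115, 11, 11, 211, 19, 313, 80, 91, 283, 231, 241, 24], 1, 3, [125, 86, 178, 131, 278, 214, 78, 8, 269, 114, 29, 322], []⟩]),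
  (7, []),
  (0, [⟨[230, 125, 207], 1, 3, [250, 372, 310], []⟩, ⟨[120, 324, 170, 129, 114, 113, 109, 365, 150, 64, 294, 166], 1, 3, [19, 103, 78, 192, 363, 299, 337, 174, 74, 14, 190, 152], []⟩]),
  (13, []),
  (0, [⟨[273, 78, 354], 1, 3, [264, 237, 355], []⟩, ⟨[134, 186, 299, 133, 89, 283], 1, 3, [236, 11, 229, 371, 32, 146], []⟩, ⟨[134, 263, 37, 297, 99, 121], 1, 3, [113, 45, 15, 7, 59, 298], []⟩]),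
  (0, [⟨[102], 1, 1, [1], [1, 5, 0, 0, 5, 1, 0, 0, 0, 0, 0, 1, 0, 0, 1]⟩, ⟨[156, 230], 1, 2, [229, 8], [-3, -2, 0, -5, 0, -1, 0, 0, 0, 0, -1, -1, 0, -1]⟩, ⟨[176, 112, 252, 193], 1, 3, [186, 20, 328, 323], []⟩, ⟨[244, 85, 320, 281], 1, 3, [107, 155, 0, 208], []⟩, ⟨[176, 149, 252, 343], 1, 3, [201, 212, 234, 128], []⟩]),
  (0, [⟨[256], 1, 1, [1], [1, 1, 0, 0, -5, 1, 1, 0, 0, 0, 0, 0, 0, 0, -1]⟩, ⟨[205, 145], 1, 2, [385, 102], [-5, 5, 9, -5, 6, 0, 0, 1, 0, 1, -1, 1, 1, -1, 1]⟩, ⟨[205, 377], 1, 2, [276, 46], [-6, 3, 0, -1, 6, -1, 1, 0, -1, 1, -1, 1, 0, 0, 1]⟩, ⟨[18, 0, 0, 0, 0, 173, 0, 0, 0, 0], 1, 3, [248, 61, 53, 364, 190, 102, 170, 3, 154, 66], []⟩]),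
  (17, []),
  (0, [⟨[33], 1, 1, [1], [1, 0, -5, 0, 5, 1, 0, 0, 0, 0, 0, 0, -1, 0, 1]⟩, ⟨[355], 1, 1, [1], [1, 5, 0, 0, -5, 1, 0, 0, 0, 0, 0, 1, 0, 0, -1]⟩, ⟨[203], 1, 1, [1], [-1, 0, 0, 5, 5, -1, 0, 0, 0, 0, 0, 0, 0, 1, 1]⟩, ⟨[315, 190, 102, 364], 1, 3, [260, 28, 122], []⟩, ⟨[111, 157, 79, 194], 1, 3, [396, 44, 196], []⟩, ⟨[387, 246, 221, 42], 1, 3, [120, 112, 127], []⟩])] (by decide +kernel)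

theorem a3 : CovA fl 30 1373170 m 2 ρ 400 (400 + 300) := covA _ _ _ _ _ _ _ _
  [(0, [⟨[80, 0, 0, 0, 0], 1, 3, [0, 0, 0, 350], []⟩, ⟨[10, 0, 0, 0, 0, 321, 0, 0, 0, 0], 1, 3, [0, 0, 0, 20, 0, 0, 0, 0, 394], []⟩]),
  (13, []),
  (11, []),
  (0, [⟨[368, 292, 292], 1, 3, [189, 378, 392], []⟩, ⟨[364, 294, 221, 39, 257, 77], 1, 3, [220, 197, 334, 286, 366, 203], []⟩, ⟨[364, 4, 102, 194, 294, 40], 1, 3, [257, 336, 244, 78, 114, 12], []⟩]),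
  (7, []),
  (0, [⟨[358], 1, 1, [1], [5, 1, 1, 5, 0, 0, 1, 1, 0, 0, 1, 0, 0, 1]⟩, ⟨[50, 24], 1, 2, [324, 392], [-3, 4, -6, 6, 0, 0, -1, -1, 1, 0, 0, 1, -1, 1]⟩, ⟨[50, 37], 1, 2, [356, 94], [1, 3, -3, 0, -6, 1, 1, -1, 0, -1, 0, 1, -1, 0, -1]⟩, ⟨[157, 0, 0, 0, 0, 403, 0, 0, 0, 0], 1, 3, [15, 368, 350, 185, 404, 289, 102, 36, 82, 400], []⟩]),
  (0, [⟨[2, 0, 0, 0, 0, 415, 0, 0, 0, 0, 0, 0, 0, 0, 0], 1, 3, [0, 0, 0, 123, 0, 0, 0, 0, 80, 0, 0, 0, 0, 411], []⟩]),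
  (7, []),
  (0, [⟨[371, 0, 0, 0, 0], 1, 3, [0, 0, 0, 122], []⟩, ⟨[273, 0, 0, 0, 0, 60, 0, 0, 0, 0], 1, 3, [0, 0, 0, 81, 0, 0, 0, 0, 387], []⟩]),
  (0, [⟨[295], 1, 1, [1], [3, 1, 0, 0, -5, 1, 1, 0, 0, 0, 1, 0, 0, 0, -1]⟩, ⟨[153], 1, 1, [1], [0, 6, -1, 5, 0, 0, 1, -1, 0, 0, 0, 1, 0, 1]⟩, ⟨[154], 1, 1, [1], [0, -1, -6, 5, 0, 0, -1, -1, 0, 0, 0, 0, -1, 1]⟩, ⟨[369, 195, 8, 138], 1, 3, [184, 143, 0, 217], []⟩, ⟨[137, 199, 406, 280], 1, 3, [170, 386, 0, 91], []⟩, ⟨[158, 91, 99, 279], 1, 3, [426, 59, 0, 300], []⟩]),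
  (19, []),
  (0, [⟨[58], 1, 1, [1], [-3, -2, 0, 0, 0, 0, 0, 0, 0, 0, 0, -1]⟩, ⟨[358], 1, 1, [1], [1, 2, 0, 5, 0, 1, -1, 0, 0, 0, 0, 0, 0, 1]⟩, ⟨[328], 1, 1, [1], [3, -1, 0, 5, 5, 0, -1, 0, 0, 0, 0, 0, 0, 1, 1]⟩, ⟨[410, 307], 1, 2, [335, 331], [-3, 2, -2, 11, 0, 0, -1, 1, 1, 0, 0, 0, 0, 2]⟩, ⟨[148, 51], 1, 2, [187, 139], [1, 7, -5, 0, 6, 1, 2, 0, 0, 1, 0, 1, -1, 0, 1]⟩, ⟨[410, 243], 1, 2, [191, 320], [1, -3, 6, 11, 0, -1, 0, 1, 1, 0, 1, 0, 1, 2]⟩, ⟨[24, 118], 1, 2, [278, 345], [7, 1, -3, 0, 0, -1, 1, -1, 0, 0, 1, 0, -1]⟩, ⟨[148, 330], 1, 2, [305, 211], [-1, -1, 0, -5, 6, 2, -1, 0, 0, 1, 0, 0, 0, -1, 1]⟩, ⟨[24, 402], 1, 2, [329, 350], [1, 3, -12, 0, 0, 1, 1, -2, 0, 0, 0, 1, -2]⟩]),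
  (0, [⟨[219], 1, 1, [1], [1, 8, 0, -5, 0, 1, 0, 0, 0, 0, 0, 1, 0, -1]⟩, ⟨[136, 62], 1, 2, [104, 211], [0, -5, -6, 6, 10, 0, 0, -1, 1, 0, 0, -1, -1, 1, 2]⟩, ⟨[110, 225, 178, 425], 1, 3, [400, 286, 418, 160], []⟩, ⟨[44, 71, 326, 224], 1, 3, [78, 146, 0, 265], []⟩, ⟨[110, 233, 178, 399], 1, 3, [111, 355, 310, 68], []⟩]),
  (0, [⟨[177], 1, 1, [1], [3, 0, 0, 5, 0, 0, 0, 0, 0, 0, 0, 0, 0, 1]⟩, ⟨[101, 20], 1, 2, [38, 86], [-2, -9, 3, 0, 0, 1, -1, 0, 0, 0, 0, -1]⟩, ⟨[101, 252], 1, 2, [307, 443], [-5, 2, -5, 6, 0, 0, 0, 0, 1, 0, -1, 1, -1, 1]⟩, ⟨[91, 0, 0, 0, 0, 301, 0, 0, 0, 0], 1, 3, [379, 251, 166, 320, 144, 42, 91, 233, 37, 140], []⟩]),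
  (11, []),
  (0, [⟨[172], 1, 1, [1], [0, 1, 0, -11, 0, 0, 1, 0, -1, 0, 0, 0, 0, -2]⟩, ⟨[265], 1, 1, [1], [3, 0, 1, 6, 0, 0, 0, 1, 1, 0, 0, 0, 0, 1]⟩, ⟨[45], 1, 1, [1], [1, 5, 5, 5, 0, 1, 0, 0, 0, 0, 0, 1, 1, 1]⟩, ⟨[440, 247, 121, 285], 1, 3, [105, 84, 86], []⟩, ⟨[36, 275, 260, 412], 1, 3, [251, 343, 391], []⟩, ⟨[355, 329, 153, 192], 1, 3, [92, 452, 319], []⟩]),
  (0, [⟨[168, 70], 1, 2, [117, 23], [-5, -1, 5, 10, -11, 0, -1, 0, 0, -1, -1, 0, 1, 2, -2]⟩, ⟨[32, 143], 1, 2, [183, 236], [-1, 2, 0, -10, 6, -1, 2, 0, 0, 1, 0, 0, 0, -2, 1]⟩, ⟨[421, 405], 1, 2, [430, 180], [1, 4, 5, 6, -5, 1, 2, 0, 1, 0, 0, 1, 1, 1, -1]⟩, ⟨[251, 137], 1, 2, [154, 166], [1, -1, 0, 8, 6, -2, -1, 0, 0, 1, 0, 0, 0, 1, 1]⟩, ⟨[50, 167], 1, 2, [38, 317],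 [-2, -5, 0, -5, 11, 1, 0, 0, 0, 1, 0, -1, 0, -1, 2]⟩, ⟨[268, 0, 0, 0, 0], 1, 3, [0, 0, 0, 88], []⟩]),
  (0, [⟨[50, 241, 227], 1, 3, [143, 348, 85], []⟩, ⟨[37, 368, 364, 11, 126, 378, 412, 412, 96, 416, 86, 236], 1, 3, [4, 266, 157, 38, 136, 182, 37, 372, 339, 83, 87, 215], []⟩]),
  (0, [⟨[208], 1, 1, [1], [3, 5, 0, 0, 5, 0, 0, 0, 0, 0, 0, 1, 0, 0, 1]⟩, ⟨[421, 361], 1, 2, [318, 6], [-1, 2, -6, 13, 0, -1, 0, -1, 0, 0, 0, 1, -1, 2]⟩, ⟨[131, 178, 167, 259], 1, 3, [33, 329, 313], []⟩, ⟨[219, 415, 110, 432], 1, 3, [159, 290, 124, 224], []⟩, ⟨[219, 258, 110, 141], 1, 3, [283, 26, 63, 175], []⟩]),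
  (7, []),
  (11, []),
  (0, [⟨[73], 1, 1, [1], [3, 0, 5, 0, 5, 1, 0, 0, 0, 0, 1, 0, 1, 0, 1]⟩, ⟨[419, 358], 1, 2, [27, 139], [3, 2, -5, 0, -5, 0, 2, 0, 0, 0, 0, 0, -1, 0, -1]⟩, ⟨[419, 48], 1, 2, [78, 356], [-5, -4, -6, -6, -6, 0, -1, -1, -1, -1, -1, 0, -1, -1, -1]⟩, ⟨[451, 0, 0, 0, 0, 171, 0, 0, 0, 0], 1, 3, [141, 280, 447, 390, 103, 58, 120, 279, 314, 293], []⟩]),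
  (13, []),
  (0, [⟨[162, 206, 132], 1, 3, [323, 103, 367], []⟩, ⟨[6, 299, 150, 215, 469, 11, 486, 383, 70, 131, 389, 355], 1, 3, [156, 196, 282, 419, 42, 208, 83, 125, 428, 331, 291, 338], []⟩]),
  (0, [⟨[263, 0, 0, 0, 0], 1, 3, [0, 0, 0, 386], []⟩, ⟨[56, 0, 0, 0, 0, 228, 0, 0, 0, 0], 1, 3, [0, 0, 0, 308, 0, 0, 0, 0, 10], []⟩]),
  (17, []),
  (7, []),
  (0, [⟨[394], 1, 1, [1], [4, 0, -5, 5, 0, -1, 0, 0, 0, 0, 1, 0, -1, 1]⟩, ⟨[12], 1, 1, [1], [-1, 0, 5, 6, 0, -1, 0, 0, 1, 0, 0, 0, 1, 1]⟩, ⟨[454], 1, 1, [1], [3, 0, 5, 0, 0, 0, 0, 0, 0, 0, 0, 0, 1]⟩, ⟨[470, 145], 1, 2, [272, 275], [-3, 3, -2, 1, 0, -1, 0, 0, 1, 0, -1, 0, -1]⟩, ⟨[452, 172], 1, 2, [473, 244], [-2, 3, -1, 11, 11, 1, 0, -1, 1, 1, 0, 0, 0, 2, 2]⟩, ⟨[452, 432], 1,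 2, [45, 478], [5, -4, 3, 0, 5, 0, -2, 1, 0, 0, 1, -1, 1, 0, 1]⟩, ⟨[470, 399], 1, 2, [105, 52], [-1, 5, 2, 0, -6, 2, 0, -1, 0, -1, 0, 1, 0, 0, -1]⟩, ⟨[355, 294], 1, 2, [477, 343], [5, -1, 0, 1, -10, 0, -1, 0, 1, 0, 1, 0, 0, 0, -2]⟩, ⟨[355, 193], 1, 2, [230, 357], [-1, 3, 0, -1, 6, -1, 1, 0, -1, 1, 0, 1, 0, 0, 1]⟩]),
  (0, [⟨[209], 1, 1, [1], [-1, 3, 0, 0, 0, -1]⟩, ⟨[23, 74], 1, 2, [462, 273], [0, 5, -6, 0, 8, 0, 0, -1, 0, 0, 0, 1, -1, 0, 1]⟩, ⟨[139, 121, 80, 294], 1, 3, [210, 143, 0, 265], []⟩, ⟨[477, 455, 491, 77], 1, 3, [201, 229, 323, 10], []⟩, ⟨[477, 241, 491, 352], 1, 3, [39, 366, 471, 338], []⟩]),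
  (0, [⟨[237], 1, 1, [1], [1, 1, 0, -5, 5, 1, 1, 0, 0, 0, 0, 0, 0, -1, 1]⟩, ⟨[330, 173], 1, 2, [263, 453], [-3, -4, 0, -5, 1, 0, -1, 0, 0, 1, 0, 0, 0, -1]⟩, ⟨[330, 99], 1, 2, [435, 238], [-3, -3, 8, -11, 0, -1, 0, 0, -1, 0, -1, 0, 1, -2]⟩, ⟨[132, 0, 0, 0, 0, 54, 0, 0, 0, 0], 1, 3, [487, 182, 150, 11, 37, 434, 120, 430, 432, 455], []⟩]),
  (7, []),
  (11, []),
  (0, [⟨[384, 0, 0, 0, 0], 1, 3, [0, 0, 0, 39], []⟩, ⟨[502, 0, 0, 0, 0, 137, 0, 0, 0, 0], 1, 3, [0, 0, 0, 300, 0, 0, 0, 0, 141], []⟩]),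
  (0, [⟨[353, 24, 481], 1, 3, [159, 20, 150], []⟩, ⟨[80, 442, 178, 420, 185, 192, 22, 253, 23, 439, 304, 42], 1, 3, [269, 331, 445, 492, 123, 108, 51, 39, 79, 222, 463, 387], []⟩]),
  (17, []),
  (23, []),
  (13, []),
  (7, []),
  (0, [⟨[2, 0, 0, 0, 0, 535, 0, 0, 0, 0, 0, 0, 0, 0, 0], 1, 3, [0, 0, 0, 502, 0, 0, 0, 0, 4, 0, 0, 0, 0, 497], []⟩]),
  (0, [⟨[221, 294, 132], 1, 3, [249, 267, 460], []⟩, ⟨[198, 343, 215, 406, 380, 196, 24, 422, 336, 4, 333, 415], 1, 3, [291, 236, 30, 280, 434, 522, 460, 464, 161, 535, 146, 373], []⟩]),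
  (19, []),
  (7, []),
  (0, [⟨[160], 1, 1, [1], [1, 5, 0, 5, 5, 1, 0, 0, 0, 0, 0, 1, 0, 1, 1]⟩, ⟨[315, 311], 1, 2, [398, 284], [5, 6, 0, 3, 5, 0, 1, 0, 0, 0, 1, 1, 0, 0, 1]⟩, ⟨[478, 495, 366, 168], 1, 3, [48, 165, 206, 125], []⟩, ⟨[73, 178, 22, 397], 1, 3, [476, 92, 29], []⟩, ⟨[478, 552, 366, 78], 1, 3, [180, 141, 519, 537], []⟩]),
  (13, []),
  (0, [⟨[559], 1, 1, [1], [1, 5, 5, 0, -5, 1, 0, 0, 0, 0, 0, 1, 1, 0, -1]⟩, ⟨[550, 40], 1, 2, [403, 8], [1, -5, -3, -6, -5, -2, 0, -1, -1, 0, 0, -1, -1, -1, -1]⟩, ⟨[307, 64, 547, 4], 1, 3, [373, 329, 0, 308], []⟩, ⟨[394, 200, 128, 421], 1, 3, [348, 22, 187, 306], []⟩, ⟨[394, 406, 128, 102], 1, 3, [43, 371, 86, 494], []⟩]),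
  (0, [⟨[203], 1, 1, [1], [3, 1, 0, 0, -5, 0, 1, 0, 0, 0, 0, 0, 0, 0, -1]⟩, ⟨[491, 90], 1, 2, [89, 390], [0, -5, 11, -5, 1, 0, 0, 1, 0, 1, 0, -1, 2, -1]⟩, ⟨[491, 350], 1, 2, [106, 240], [-3, -3, -4, -5, 0, -3, -1, 1, 0, 0, 0, -1, -1, -1]⟩, ⟨[328, 497], 1, 2, [295, 24], [3, -1, -1, -5, 6, 0, -1, -1, 0, 1, 0, 0, 0, -1, 1]⟩, ⟨[491, 296], 1, 2, [508, 258], [-2, 6, 3, 11, 0, 0, 1, 0, 1, 0, -1, 1, 0, 2]⟩, ⟨[328, 438], 1, 2, [459, 146], [3, 7, 1, 1, 0, 0, 0, 1, 1, 0, 0, 2]⟩, ⟨[491, 100], 1, 2, [386, 493], [5, 0, -1, -1, 6, 0, 0, -1, -1, 1, 1, 0, 0, 0, 1]⟩, ⟨[491, 302], 1, 2, [467, 223], [-3, 3, 7, 1, 0, 0, 0, 2, 1, 0, 0, 0, 1]⟩]),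
  (0, [⟨[488, 0, 92], 1, 3, [256, 514, 391], []⟩, ⟨[338, 0, 202], 1, 3, [299, 188, 2], []⟩, ⟨[414, 0, 285], 1, 3, [498, 239, 212], []⟩, ⟨[426, 0, 518], 1, 3, [289, 562, 203], []⟩, ⟨[47, 0, 45], 1, 3, [371, 210, 334], []⟩]),
  (0, [⟨[108, 124, 376], 1, 3, [151, 514, 161], []⟩, ⟨[203, 2, 274, 455, 244, 425, 339, 14, 170, 21, 442, 201], 1, 3, [107, 27, 171, 264, 176, 199, 74, 7, 373, 454, 559, 504], []⟩]),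
  (7, []),
  (11, []),
  (0, [⟨[346], 1, 1, [1], [4, 0, 5, 0, 0, -1, 0, 0, 0, 0, 1, 0, 1]⟩, ⟨[409, 77], 1, 2, [488, 338], [5, -5, 0, 11, -4, 0, 0, 0, 1, 1, 1, -1, 0, 2, -1]⟩, ⟨[14, 137, 475, 407], 1, 3, [179, 16, 400, 265], []⟩, ⟨[150, 506, 32, 241], 1, 3, [565, 229, 551], []⟩, ⟨[14, 245, 475, 103], 1, 3, [180, 429, 524, 78], []⟩]),
  (19, []),
  (0, [⟨[169], 1, 1, [1], [3, -1, 0, 0, 0, 1, -1, 0, 0, 0, 1]⟩, ⟨[236, 205], 1, 2, [231, 530], [5, 1, 1, 1, 0, -1, -2, 1, 1]⟩, ⟨[46, 539, 556, 433], 1, 3, [482, 571, 47, 167], []⟩, ⟨[46, 401, 556, 548], 1, 3, [535, 187, 588, 163], []⟩, ⟨[79, 211, 496, 424], 1, 3, [291, 507, 0, 572], []⟩]),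
  (0, [⟨[94], 1, 1, [1], [3, 0, 1, 0, 0, 1, 0, 1, 0, 0, 1]⟩, ⟨[149, 46], 1, 2, [148, 254], [4, -5, 0, 16, -5, 2, 0, 0, 1, 0, 1, -1, 0, 3, -1]⟩, ⟨[149, 459], 1, 2, [177, 148], [6, 1, 0, -6, 1, 0, 1, 0, -1, 1, 0, 0, 0, -1]⟩, ⟨[109, 0, 0, 0, 0, 22, 0, 0, 0, 0], 1, 3, [589, 519, 411, 205, 243, 545, 237, 203, 209, 28], []⟩]),
  (0, [⟨[202], 1, 1, [1], [2, 5, -5, 0, 0, 0, 0, 0, 0, 0, 1, 1, -1]⟩, ⟨[229], 1, 1, [1], [3, 2, 0, -5, 0, 0, -1, 0, 0, 0, 0, 0, 0, -1]⟩, ⟨[119], 1, 1, [1], [-3, 2, 0, -5, 0, 0, -1, 0, 0, 0, 0, 0, 0, -1]⟩, ⟨[364], 1, 1, [1], [1, -1, 0, 6, 0, 1, -1, 0, 1, 0, 0, 0, 0, 1]⟩, ⟨[454], 1, 1, [1], [3, -1, 0, 0, 0, 0, -1]⟩, ⟨[106], 1, 1, [1], [2, 5, 0, 0, -5, -1, 0, 0, 0, 0, 0, 1, 0, 0, -1]⟩, ⟨[323], 1, 1, [1], [-4,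 1, 0, 5, 0, 1, 1, 0, 0, 0, -1, 0, 0, 1]⟩, ⟨[104], 1, 1, [1], [3, 1, 0, -5, -5, 0, 1, 0, 0, 0, 0, 0, 0, -1, -1]⟩, ⟨[387], 1, 1, [1], [1, 1, 0, 0, 5, 1, 1, 0, 0, 0, 0, 0, 0, 0, 1]⟩, ⟨[116], 1, 1, [1], [-2, 5, 0, 0, 5, 0, 0, 0, 0, 0, -1, 1, 0, 0, 1]⟩, ⟨[458, 0, 0, 0, 0], 1, 3, [0, 0, 0, 307], []⟩]),
  (0, [⟨[583, 284, 325], 1, 3, [149, 126, 478], []⟩, ⟨[253, 60, 317, 380, 213, 293, 291, 523, 557, 105, 316, 282], 1, 3, [13, 381, 200, 298, 530, 468, 83, 54, 268, 333, 252, 60], []⟩]),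
  (13, []),
  (0, [⟨[236, 406, 187], 1, 3, [128, 208, 70], []⟩, ⟨[400, 195, 558, 147, 524, 265, 488, 93, 122, 225, 179, 426], 1, 3, [119, 119, 551, 318, 509, 137, 466, 263, 152, 381, 474, 467], []⟩]),
  (0, [⟨[556], 1, 1, [1], [5, 0, 0, 6, -5, 0, 0, 0, 1, 0, 1, 0, 0, 1, -1]⟩, ⟨[572, 205], 1, 2, [126, 378], [2, -10, 5, 5, -5, 2, 0, 0, 0, 0, 0, -2, 1, 1, -1]⟩, ⟨[256, 542, 598, 61], 1, 3, [591, 334, 161], []⟩, ⟨[443, 439, 66, 224], 1, 3, [536, 270, 228, 539], []⟩, ⟨[443, 208, 66, 188], 1, 3, [529, 171, 100, 27], []⟩]),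
  (0, [⟨[286, 362, 63], 1, 3, [94, 386, 138], []⟩, ⟨[531, 519, 371, 401, 296, 390], 1, 3, [309, 50, 529, 474, 405, 350], []⟩, ⟨[531, 259, 64, 454, 70, 166], 1, 3, [351, 391, 107, 525, 30, 522], []⟩]),
  (7, []),
  (17, []),
  (0, [⟨[2, 0, 0, 0, 0, 625, 0, 0, 0, 0, 0, 0, 0, 0, 0], 1, 3, [0, 0, 0, 327, 0, 0, 0, 0, 73, 0, 0, 0, 0, 231], []⟩]),
  (7, []),
  (0, [⟨[366, 0, 0, 0, 0], 1, 3, [0, 0, 0, 95], []⟩, ⟨[7, 0, 0, 0, 0, 275, 0, 0, 0, 0], 1, 3, [0, 0, 0, 220, 0, 0, 0, 0, 435], []⟩]),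
  (0, [⟨[352], 1, 1, [1], [-1, 1, 5, 0, 0, -1, 1, 0, 0, 0, 0, 0, 1]⟩, ⟨[201], 1, 1, [1], [-1, 2, 0, 6, 0, -1, -1, 0, 1, 0, 0, 0, 0, 1]⟩, ⟨[312], 1, 1, [1], [-1, 1, 0, 0, 5, -1, 1, 0, 0, 0, 0, 0, 0, 0, 1]⟩, ⟨[553, 489, 108, 442], 1, 3, [437, 562, 0, 163], []⟩, ⟨[555, 482, 195, 291], 1, 3, [153, 258, 0, 550], []⟩, ⟨[13, 134, 392, 331], 1, 3, [560, 381, 0, 189], []⟩]),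
  (0, [⟨[371], 1, 1, [1], [3, -1, -5, 0, 0, 1, -1, 0, 0, 0, 1, 0, -1]⟩, ⟨[74, 156], 1, 2, [566, 225], [-3, -2, -4, 0, -5, 3, 0, 1, 0, 0, 0, -1, -1, 0, -1]⟩, ⟨[347, 312, 28, 128], 1, 3, [25, 212, 351, 6], []⟩, ⟨[215, 311, 170, 276], 1, 3, [102, 471, 517], []⟩, ⟨[347, 233, 28, 363], 1, 3, [164, 69, 308, 253], []⟩]),
  (11, []),
  (0, [⟨[471], 1, 1, [1], [3, 0, 6, 0, 0, 1, 0, 1, 0, 0, 1, 0, 1]⟩, ⟨[522, 89], 1, 2, [510, 238], [-6, 9, 5, 5, 0, -1, 2, 0, 0, 0, -1, 2, 1, 1]⟩, ⟨[470, 428, 308, 147], 1, 3, [386, 53, 253, 357], []⟩, ⟨[470, 320, 308, 417], 1, 3, [356, 27, 110, 612], []⟩, ⟨[609, 72, 179, 182], 1, 3, [483, 575, 0, 388], []⟩]),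
  (0, [⟨[411], 1, 1, [1], [2, 0, -5, 0, 0, 0, 0, 0, 0, 0, 1, 0, -1]⟩, ⟨[442, 423], 1, 2, [295, 332], [5, -1, 3, 11, -1, 0, -1, 0, 1, -1, 1, 0, 0, 2]⟩, ⟨[520, 230], 1, 2, [73, 326], [-5, -5, 1, 1, 14, 0, 0, 1, 1, 1, -1, -1, 0, 0, 2]⟩, ⟨[520, 513], 1, 2, [342, 438], [2, -1, -10, 6, 5, 0, 2, 0, 1, 0, 1, 0, -2, 1, 1]⟩, ⟨[520, 225], 1, 2, [644, 88], [6, -6, -5, 1, 11, 1, -1, 0, 1, 1, 1, -1, -1, 0, 2]⟩, ⟨[520, 16], 1, 2, [492, 268], [1, 3, 0, -8, 8, -2, 0, 0, 0, 0, 0, 0, 0, -1, 1]⟩, ⟨[442, 484], 1, 2, [457, 491], [8, 5, 11, -10, 5, 0, 0, 1, 0, 0, 1, 1, 2, -2, 1]⟩, ⟨[520, 334], 1, 2, [381, 270], [-4, 3, 9, 0, 0, 1, 0, 1, 0, 0, -1, 0, 1]⟩]),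
  (0, [⟨[2, 0, 0, 0, 0, 655, 0, 0, 0, 0, 0, 0, 0, 0, 0], 1, 3, [0, 0, 0, 458, 0, 0, 0, 0, 204, 0, 0, 0, 0, 474], []⟩]),
  (23, []),
  (11, []),
  (0, [⟨[641, 88, 158], 1, 3, [629, 197, 487], []⟩, ⟨[631, 221, 148, 490, 494, 366, 528, 89, 611, 631, 522, 515], 1, 3, [63, 271, 545, 375, 381, 94, 40, 382, 477, 434, 354, 497], []⟩]),
  (0, [⟨[333], 1, 1, [1], [3, 5, 0, 5, 0, 0, 0, 0, 0, 0, 0, 1, 0, 1]⟩, ⟨[509, 420], 1, 2, [555, 626], [-5, -2, 6, 1, 0, -3, 1, 1, 1, 0, -1, 0, 1]⟩, ⟨[312, 251, 139, 344], 1, 3, [301, 465, 631], []⟩, ⟨[210, 41, 124, 19], 1, 3, [530, 34, 412, 277], []⟩, ⟨[210, 484, 124, 238], 1, 3, [542, 663, 74, 639], []⟩]),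
  (7, []),
  (0, [⟨[609], 1, 1, [1], [3, 0, 0, 0, 6, 0, 0, 0, 0, 1, 0, 0, 0, 0, 1]⟩, ⟨[653, 676], 1, 2, [635, 279], [0, -5, 0, -2, 18, 0, 0, 0, 1, 0, 0, -1, 0, 0, 3]⟩, ⟨[466, 99, 41, 72], 1, 3, [187, 559, 295, 91], []⟩, ⟨[466, 111, 41, 618], 1, 3, [662, 3, 513, 318], []⟩, ⟨[539, 205, 671, 74], 1, 3, [148, 681, 0, 341], []⟩]),
  (13, []),
  (0, [⟨[450, 0, 0, 0, 0], 1, 3, [0, 0, 0, 172], []⟩, ⟨[505, 0, 0, 0, 0], 1, 3, [0, 0, 0, 145], []⟩, ⟨[427, 0, 0, 0, 0], 1, 3, [0, 0, 0, 335], []⟩]),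
  (17, [])] (by decide +kernel)

theorem a4 : CovA fl 30 1373170 m 2 ρ 700 (700 + 472) := covA _ _ _ _ _ _ _ _
  [(0, [⟨[325, 0, 0, 0, 0], 1, 3, [0, 0, 0, 675], []⟩, ⟨[220, 0, 0, 0, 0, 376, 0, 0, 0, 0], 1, 3, [0, 0, 0, 312, 0, 0, 0, 0, 700], []⟩]),
  (19, []),
  (7, []),
  (0, [⟨[477, 700, 16], 1, 3, [707, 632, 601], []⟩, ⟨[60, 421, 658, 455, 341, 100], 1, 3, [33, 165, 257, 219, 482, 117], []⟩, ⟨[60, 249, 431, 342, 574, 593], 1, 3, [487, 196, 478, 80, 391, 610], []⟩]),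
  (23, []),
  (0, [⟨[331], 1, 1, [1], [1, 0, 0, -5, 6, 1, 0, 0, 0, 1, 0, 0, 0, -1, 1]⟩, ⟨[446, 58], 1, 2, [707, 50], [-4, 2, -5, 11, 0, -2, -1, 0, 1, 0, -1, 0, -1, 2]⟩, ⟨[446, 330], 1, 2, [403, 137], [-4, 1, -5, 0, 11, -2, 1, 0, 0, 1, -1, 0, -1, 0, 2]⟩, ⟨[172, 0, 0, 0, 0, 510, 0, 0, 0, 0], 1, 3, [286, 252, 191, 150, 63, 569, 441, 66, 86, 263], []⟩]),
  (7, []),
  (0, [⟨[527], 1, 1, [1], [-1, -2, 5, 0, 0, -1, 0, 0, 0, 0, 0, -1, 1]⟩, ⟨[193], 1, 1, [1], [3, 0, 0, 0, 5, 0, 0, 0, 0, 0, 0, 0, 0, 0, 1]⟩, ⟨[81], 1, 1, [1], [-1, 0, 0, 0, 6, -1, 0, 0, 0, 1, 0, 0, 0, 0, 1]⟩, ⟨[223, 246, 555, 534], 1, 3, [563, 542, 371], []⟩, ⟨[403, 723, 709, 646], 1, 3, [210, 109, 254], []⟩, ⟨[502, 92, 712, 200], 1, 3, [252, 501, 453], []⟩]),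
  (17, []),
  (0, [⟨[241], 1, 1, [1], [-1, 0, -1, 0, -5, -1, 0, -1, 0, 0, 0, 0, 0, 0, -1]⟩, ⟨[30], 1, 1, [1], [-1, 1, -5, -5, 0, -1, 1, 0, 0, 0, 0, 0, -1, -1]⟩, ⟨[516], 1, 1, [1], [-1, 0, -1, 5, 0, -1, 0, -1, 0, 0, 0, 0, 0, 1]⟩, ⟨[190, 293, 556, 217], 1, 3, [516, 1, 0, 410], []⟩, ⟨[698, 121, 566, 703], 1, 3, [424, 63, 0, 462], []⟩, ⟨[510, 580, 559, 492], 1, 3, [626, 252, 0, 156], []⟩]),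
  (11, []),
  (0, [⟨[141], 1, 1, [1], [3, 0, -5, 0, 0, 1, 0, 0, 0, 0, 1, 0, -1]⟩, ⟨[439], 1, 1, [1], [3, -6, 0, -5, 0, 0, -1, 0, 0, 0, 0, -1, 0, -1]⟩, ⟨[715], 1, 1, [1], [5, 1, 1, 0, 0, 0, 1, 1, 0, 0, 1]⟩, ⟨[163, 124], 1, 2, [83, 392], [-7, 2, 0, 8, -6, 0, -1, 0, 0, -1, -2, 0, 0, 1, -1]⟩, ⟨[163, 639], 1, 2, [502, 483], [3, 2, -5, 11, 0, 0, -1, 0, 1, 0, 0, 0, -1, 2]⟩, ⟨[158, 72], 1, 2, [184, 77], [-2, -1, 1, 16, 5, 1, -1, 1, 1, 0, 0, 0, 0, 3, 1]⟩, ⟨[72, 218], 1, 2, [685, 570], [-4, -5, -5, -11, 10, -1, 0, 0, -1, 0, 0, -1, -1, -2, 2]⟩, ⟨[72, 380], 1, 2, [206, 559], [4, -5, -5, 2, -5, 1, 0, 0, -1, 0, 0, -1, -1, 0, -1]⟩, ⟨[158, 228], 1, 2, [454, 372], [-3, -3, 10, 0, 8, 0, 0, 0, 0, 0, 0, 0, 2, 0, 1]⟩]),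
  (0, [⟨[156], 1, 1, [1], [1, 3, 0, -5, 0, 1, 0, 0, 0, 0, 0, 0, 0, -1]⟩, ⟨[404, 636], 1, 2, [135, 315], [-7, 7, -5, 1, 0, 1, -1, 0, 1, 0, -1, 1, -1]⟩, ⟨[689, 314, 183, 587], 1, 3, [635, 628, 0, 550], []⟩, ⟨[244, 204, 713, 159], 1, 3, [486, 210, 292, 442], []⟩, ⟨[244, 405, 713, 691], 1, 3, [436, 210, 383, 99], []⟩]),
  (7, []),
  (0, [⟨[2, 0, 0, 0, 0, 745, 0, 0, 0, 0, 0, 0, 0, 0, 0], 1, 3, [0, 0, 0, 510, 0, 0, 0, 0, 53, 0, 0, 0, 0, 581], []⟩]),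
  (0, [⟨[517, 298, 203], 1, 3, [628, 506, 302], []⟩, ⟨[675, 365, 346, 29, 406, 278, 597, 653, 586, 552, 128, 554], 1, 3, [53, 445, 345, 521, 434, 357, 172, 183, 391, 597, 508, 418], []⟩]),
  (0, [⟨[461, 0, 0, 0, 0], 1, 3, [0, 0, 0, 501], []⟩, ⟨[553, 0, 0, 0, 0, 300, 0, 0, 0, 0], 1, 3, [0, 0, 0, 601, 0, 0, 0, 0, 330], []⟩]),
  (7, []),
  (13, []),
  (0, [⟨[507, 550, 410], 1, 3, [484, 648, 24], []⟩, ⟨[566, 416, 332, 49, 728, 160], 1, 3, [377, 8, 535, 460, 113, 657], []⟩, ⟨[566, 56, 111, 396, 113, 199], 1, 3, [616, 76, 90, 677, 498, 293], []⟩]),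
  (0, [⟨[520], 1, 1, [1], [3, 0, 5, -5, 0, 0, 0, 0, 0, 0, 0, 0, 1, -1]⟩, ⟨[667, 517], 1, 2, [136, 146], [-1, 3, -5, 8, 13, -1, 0, 0, 0, 0, 0, 0, -1, 1, 2]⟩, ⟨[690, 700, 150, 253], 1, 3, [605, 737, 0, 279], []⟩, ⟨[359, 383, 487, 143], 1, 3, [661, 755, 679, 229], []⟩, ⟨[359, 471, 487, 113], 1, 3, [226, 234, 709, 149], []⟩]),
  (19, []),
  (11, []),
  (0, [⟨[722, 741, 409], 1, 3, [608, 541, 389], []⟩, ⟨[109, 613, 22, 474, 181, 602, 415, 513, 665, 620, 396, 378], 1, 3, [659, 719, 390, 52, 582, 508, 16, 515, 94, 295, 211, 518], []⟩]),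
  (7, []),
  (13, []),
  (0, [⟨[183], 1, 1, [1], [6, 1, -6, 0, 0, 1, 1, -1, 0, 0, 1, 0, -1]⟩, ⟨[154, 93], 1, 2, [53, 16], [-4, -6, -4, 11, 5, -1, -1, 1, 1, 0, 0, -1, -1, 2, 1]⟩, ⟨[572, 443, 782, 614], 1, 3, [170, 240, 277], []⟩, ⟨[194, 548, 453, 573], 1, 3, [163, 246, 234, 102], []⟩, ⟨[194, 225, 453, 131], 1, 3, [211, 585, 304, 647], []⟩]),
  (17, []),
  (11, []),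
  (0, [⟨[292], 1, 1, [1], [1, 3, 5, -5, 0, 1, 0, 0, 0, 0, 0, 0, 1, -1]⟩, ⟨[490, 160], 1, 2, [782, 779], [-7, 5, -3, 0, 0, 1, 0, -1, 0, 0, -1, 1, -1]⟩, ⟨[490, 357], 1, 2, [667, 522], [-6, -4, 5, -5, 11, -1, 1, 0, 0, 1, -1, -1, 1, -1, 2]⟩, ⟨[461, 0, 0, 0, 0, 358, 0, 0, 0, 0], 1, 3, [437, 243, 353, 105, 170, 801, 539, 439, 762, 218], []⟩]),
  (0, [⟨[701, 0, 0, 0, 0], 1, 3, [0, 0, 0, 295], []⟩, ⟨[506, 0, 0, 0, 0], 1, 3, [0, 0, 0, 359], []⟩, ⟨[415, 0, 0, 0, 0], 1, 3, [0, 0, 0, 127], []⟩]),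
  (19, []),
  (0, [⟨[341], 1, 1, [1], [1, 0, -5, 1, 0, 1, 0, 0, 1, 0, 0, 0, -1]⟩, ⟨[150], 1, 1, [1], [1, 0, 0, 5, -10, 1, 0, 0, 0, 0, 0, 0, 0, 1, -2]⟩, ⟨[261], 1, 1, [1], [-1, 5, 5, 0, 0, -1, 0, 0, 0, 0, 0, 1, 1]⟩, ⟨[715], 1, 1, [1], [-1, 5, -6, 0, 0, -1, 0, -1, 0, 0, 0, 1, -1]⟩, ⟨[175], 1, 1, [1], [0, 3, -6, 0, 0, 0, 0, -1, 0, 0, 0, 0, -1]⟩, ⟨[209, 0, 0, 0, 0, 110, 0, 0, 0, 0], 1, 3, [0, 0, 0, 704, 0, 0, 0, 0, 754], []⟩]),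
  (0, [⟨[476, 810, 631], 1, 3, [391, 428, 228], []⟩, ⟨[370, 636, 464, 557, 406, 216, 795, 146, 211, 381, 184, 192], 1, 3, [301, 579, 351, 819, 503, 218, 308, 294, 62, 37, 569, 681], []⟩]),
  (0, [⟨[225], 1, 1, [1], [3, 2, 0, 0, -5, 0, -1, 0, 0, 0, 0, 0, 0, 0, -1]⟩, ⟨[596, 277], 1, 2, [165, 166], [5, 5, 0, 0, 3, 0, -1, 0, 0, 0, 1]⟩, ⟨[569, 473, 649, 602], 1, 3, [210, 221, 568], []⟩, ⟨[394, 36, 48, 378], 1, 3, [147, 456, 301, 403], []⟩, ⟨[394, 483, 48, 172], 1, 3, [805, 663, 327, 635], []⟩]),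
  (0, [⟨[170, 609, 94], 1, 3, [96, 258, 488], []⟩, ⟨[115, 828, 310, 574, 108, 95], 1, 3, [800, 212, 813, 475, 806, 738], []⟩, ⟨[115, 735, 112, 130, 678, 640], 1, 3, [97, 532, 535, 675, 274, 822], []⟩]),
  (7, []),
  (0, [⟨[69], 1, 1, [1], [1, -5, 0, 6, -5, 1, 0, 0, 1, 0, 0, -1, 0, 1, -1]⟩, ⟨[273, 37], 1, 2, [284, 30], [-1, -6, 1, 9, 5, -1, -1, 1, 1, 0, 0, -1, 0, 1, 1]⟩, ⟨[330, 645], 1, 2, [463, 394], [-3, -2, 8, -5, 0, -1, -2, 0, 0, 0, -1, 0, 1, -1]⟩, ⟨[273, 733], 1, 2, [20, 222], [-5, -1, 3, -10, 1, 0, -1, 0, 0, 1, -1, 0, 0, -2]⟩, ⟨[330, 808], 1, 2, [153, 64], [3, 2, 8, 1, 5, 1, -1, 0, 1, 0, 1, 0, 1, 0, 1]⟩, ⟨[330, 376], 1, 2, [743, 661], [-1, 10, 6, 1, 0, -1, 0, 1, 1, 0, 0, 2, 1]⟩, ⟨[330, 530], 1, 2, [538, 685], [3, -3,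 0, -4, 5, 0, 0, 0, -2, 0, 0, 0, 0, -1, 1]⟩, ⟨[330, 158], 1, 2, [86, 360], [-2, 0, -5, 0, 16, 0, 0, 0, 0, 1, -1, 0, -1, 0, 3]⟩]),
  (29, []),
  (7, []),
  (23, []),
  (0, [⟨[815, 248, 499], 1, 3, [498, 152, 104], []⟩, ⟨[449, 506, 197, 219, 748, 569, 578, 517, 152, 650, 680, 354], 1, 3, [763, 184, 345, 313, 173, 338, 447, 16, 609, 524, 690, 281], []⟩]),
  (0, [⟨[795], 1, 1, [1], [3, -5, 5, 0, 0, 0, 0, 0, 0, 0, 0, -1, 1]⟩, ⟨[381, 689], 1, 2, [764, 458], [1, -3, -14, 6, -5, 1, 0, -1, 1, 0, 0, 0, -2, 1, -1]⟩, ⟨[529, 475, 628, 158], 1, 3, [480, 557, 828, 192], []⟩, ⟨[58, 82, 441, 62], 1, 3, [192, 579, 396], []⟩, ⟨[529, 649, 628, 10], 1, 3, [837, 267, 324, 579], []⟩]),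
  (0, [⟨[575, 753, 161], 1, 3, [616, 643, 629], []⟩, ⟨[90, 495, 186, 439, 658, 71], 1, 3, [476, 154, 56, 85, 186, 567], []⟩, ⟨[90, 403, 338, 818, 5, 627], 1, 3, [71, 453, 298, 658, 594, 662], []⟩]),
  (0, [⟨[627], 1, 1, [1], [4, 0, 5, 0, 5, -1, 0, 0, 0, 0, 1, 0, 1, 0, 1]⟩, ⟨[495, 255], 1, 2, [460, 81], [-2, 8, 0, 16, 5, 1, 1, 0, 1, 0, 0, 2, 0, 3, 1]⟩, ⟨[67, 93, 804, 127], 1, 3, [140, 124, 14, 264], []⟩, ⟨[67, 134, 804, 481], 1, 3, [132, 281, 410, 652], []⟩, ⟨[454, 766, 399, 236], 1, 3, [786, 121, 0, 51], []⟩]),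
  (11, []),
  (13, []),
  (0, [⟨[80, 87, 524], 1, 3, [283, 368, 631], []⟩, ⟨[285, 293, 40, 354, 727, 476, 842, 832, 32, 117, 715, 353], 1, 3, [317, 566, 861, 166, 601, 410, 785, 298, 585, 409, 129, 321], []⟩]),
  (0, [⟨[682], 1, 1, [1], [0, 1, -11, -5, 0, 0, 1, -1, 0, 0, 0, 0, -2, -1]⟩, ⟨[409], 1, 1, [1], [3, 0, 5, 6, 0, 0, 0, 0, 1, 0, 0, 0, 1, 1]⟩, ⟨[833], 1, 1, [1], [0, 0, -5, 6, 5, 0, 0, 0, 1, 0, 0, 0, -1, 1, 1]⟩, ⟨[368], 1, 1, [1], [1, 0, -5, -5, 0, -2, 0, 0, 0, 0, 0, 0, -1, -1]⟩, ⟨[351], 1, 1, [1], [0, 6, -1, 0, 5, 0, 1, -1, 0, 0, 0, 1, 0, 0, 1]⟩, ⟨[66, 0, 0, 0, 0, 267, 0, 0, 0, 0], 1, 3, [0, 0, 0, 171, 0, 0, 0, 0, 703], []⟩]),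
  (0, [⟨[200, 450, 759], 1, 3, [743, 468, 190], []⟩, ⟨[415, 170, 228, 632, 601, 171, 512, 127, 814, 369, 68, 124], 1, 3, [118, 95, 128, 769, 661, 460, 516, 111, 160, 275, 815, 154], []⟩]),
  (0, [⟨[426], 1, 1, [1], [1, -5, 0, 0, 0, -2, 0, 0, 0, 0, 0, -1]⟩, ⟨[174, 884], 1, 2, [502, 39], [-5, -1, 1, 6, 0, 0, 2, 1, 1, 0, -1, 0, 0, 1]⟩, ⟨[769, 372, 356, 311], 1, 3, [486, 467, 243, 74], []⟩, ⟨[769, 880, 356, 579], 1, 3, [103, 325, 393, 331], []⟩, ⟨[621, 370, 359, 461], 1, 3, [338, 852, 4], []⟩]),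
  (7, []),
  (19, []),
  (29, []),
  (17, []),
  (0, [⟨[660, 558, 464], 1, 3, [808, 123, 808], []⟩, ⟨[448, 50, 132, 629, 255, 90, 588, 549, 211, 863, 12, 443], 1, 3, [470, 519, 235, 792, 73, 397, 284, 526, 753, 858, 315, 745], []⟩]),
  (0, [⟨[75], 1, 1, [1], [3, 2, -6, 0, 0, 0, -1, -1, 0, 0, 0, 0, -1]⟩, ⟨[867], 1, 1, [1], [-1, 2, 5, 0, 0, -1, -1, 0, 0, 0, 0, 0, 1]⟩, ⟨[621], 1, 1, [1], [-1, 5, 0, -5, 5, -1, 0, 0, 0, 0, 0, 1, 0, -1, 1]⟩, ⟨[514], 1, 1, [1], [-3, 0, 5, 6, 0, 0, 0, 0, 1, 0, 0, 0, 1, 1]⟩, ⟨[656], 1, 1, [1], [3, -5, 0, 0, 0, 0, 0, 0, 0, 0, 0, -1]⟩, ⟨[751, 804], 1, 2, [149, 437], [1, 1, 5, 0, 11, -2, 1, 0, 0, 1, 0, 0, 1, 0, 2]⟩, ⟨[519, 546], 1, 2, [760, 104], [-1, 3, 5, -1, 16, 2, 0, 0, -1, 1, 0, 0, 1, 0, 3]⟩, ⟨[544,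 700], 1, 2, [775, 193], [4, 1, -10, -4, 5, 2, 1, 0, 1, 0, 1, 0, -2, -1, 1]⟩, ⟨[315, 330], 1, 2, [98, 154], [-5, 5, -8, 0, 5, 0, 0, -1, 0, 0, -1, 1, -2, 0, 1]⟩, ⟨[604, 353], 1, 2, [40, 23], [3, -4, 5, 1, 5, -2, -2, 0, 1, 0, 1, -1, 1, 0, 1]⟩]),
  (11, []),
  (7, []),
  (0, [⟨[467], 1, 1, [1], [4, 1, 5, 0, 0, -1, 1, 0, 0, 0, 1, 0, 1]⟩, ⟨[362], 1, 1, [1], [0, 5, -6, 0, 5, 0, 0, -1, 0, 0, 0, 1, -1, 0, 1]⟩, ⟨[109], 1, 1, [1], [1, -3, 5, 0, 0, 1, -1, 0, 0, 0, 0, -1, 1]⟩, ⟨[373, 121], 1, 2, [885, 555], [-2, 6, -5, 6, 11, 1, 1, 0, 1, 1, 0, 1, -1, 1, 2]⟩, ⟨[633, 532], 1, 2, [906, 425], [-1, -5, -4, 0, 5, 0, 0, -1, 0, 0, 1, -1, 0, 0, 1]⟩, ⟨[373, 436], 1, 2, [1, 704], [-3, 3, 10, 5, 6, 0, 1, 0, 0, 1, 0, 1, 2, 1, 1]⟩, ⟨[66, 441], 1, 2,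 [349, 609], [1, 4, -6, 13, 6, 1, 1, -1, 0, 1, 0, 0, -1, 2, 1]⟩, ⟨[66, 369], 1, 2, [81, 672], [-1, 5, -3, 8, 0, -1, -1, 0, 0, 0, 0, 0, 0, 1]⟩, ⟨[633, 839], 1, 2, [442, 57], [-4, -7, -1, 6, 0, -2, -2, -1, 1, 0, -1, -1, 0, 1]⟩]),
  (13, []),
  (0, [⟨[22], 1, 1, [1], [3, 1, 0, -5, 0, 1, 1, 0, 0, 0, 1, 0, 0, -1]⟩, ⟨[445, 247], 1, 2, [288, 701], [-1, 0, -8, -1, 5, -2, 0, 0, -1, 0, -1, 0, -1, 0, 1]⟩, ⟨[445, 660], 1, 2, [261, 109], [1, -7, -5, 5, 11, 1, 0, 0, 0, 1, 0, -2, -1, 1, 2]⟩, ⟨[206, 0, 0, 0, 0, 460, 0, 0, 0, 0], 1, 3, [675, 36, 224, 195, 330, 150, 722, 830, 211, 285], []⟩]),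
  (7, []),
  (0, [⟨[913, 104, 184], 1, 3, [232, 44, 617], []⟩, ⟨[859, 599, 436, 4, 485, 318, 255, 907, 172, 778, 709, 753], 1, 3, [814, 622, 925, 270, 386, 361, 166, 345, 476, 757, 191, 290], []⟩]),
  (0, [⟨[529, 0, 0, 0, 0], 1, 3, [0, 0, 0, 189], []⟩, ⟨[571, 0, 0, 0, 0, 412, 0, 0, 0, 0], 1, 3, [0, 0, 0, 461, 0, 0, 0, 0, 870], []⟩]),
  (23, []),
  (0, [⟨[777], 1, 1, [1], [-5, 0, -5, 6, 0, 0, 0, 0, 1, 0, -1, 0, -1, 1]⟩, ⟨[168, 354], 1, 2, [803, 691], [1, 1, -5, 11, 14, -2, 1, 0, 1, 1, 0, 0, -1, 2, 2]⟩, ⟨[438, 911, 457, 170], 1, 3, [528, 121, 32], []⟩, ⟨[186, 33, 131, 441], 1, 3, [537, 841, 588, 490], []⟩, ⟨[186, 725, 131, 152], 1, 3, [852, 143, 765, 518], []⟩]),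
  (13, []),
  (0, [⟨[588], 1, 1, [1], [-1, 0, 3, 0, 0, -1]⟩, ⟨[655, 680], 1, 2, [591, 130], [5, 3, 1, -5, 13, 0, 0, 1, 0, 0, 1, 0, 0, -1, 2]⟩, ⟨[778, 456, 699, 700], 1, 3, [193, 190, 559, 822], []⟩, ⟨[95, 300, 195, 365], 1, 3, [823, 392, 0, 859], []⟩, ⟨[778, 846, 699, 526], 1, 3, [44, 178, 187, 236], []⟩]),
  (7, []),
  (31, []),
  (0, [⟨[467, 242, 871], 1, 3, [444, 654, 888], []⟩, ⟨[762, 539, 776, 932, 829, 623, 624, 349, 835, 479, 212, 96], 1, 3, [671, 197, 286, 608, 518, 350, 224, 366, 747, 412, 883, 878], []⟩]),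
  (0, [⟨[108, 0, 0, 0, 0], 1, 3, [0, 0, 0, 183], []⟩, ⟨[953, 0, 0, 0, 0, 863, 0, 0, 0, 0], 1, 3, [0, 0, 0, 210, 0, 0, 0, 0, 62], []⟩]),
  (7, []),
  (0, [⟨[188], 1, 1, [1], [-1, 5, -5, 5, 0, -1, 0, 0, 0, 0, 0, 1, -1, 1]⟩, ⟨[190, 405], 1, 2, [943, 280], [1, -9, 0, -5, 5, -1, -2, 0, 0, 0, 1, -2, 0, -1, 1]⟩, ⟨[703, 882, 805, 789], 1, 3, [643, 181, 532], []⟩, ⟨[49, 431, 518, 456], 1, 3, [295, 384, 778, 97], []⟩, ⟨[49, 313, 518, 116], 1, 3, [527, 714, 672, 384], []⟩]),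
  (11, []),
  (0, [⟨[918], 1, 1, [1], [0, 0, 5, -5, 6, 0, 0, 0, 0, 1, 0, 0, 1, -1, 1]⟩, ⟨[63, 500], 1, 2, [501, 576], [4, 3, -10, 5, -6, 2, 1, 0, 0, -1, 1, 1, -2, 1, -1]⟩, ⟨[946, 969, 476, 592], 1, 3, [354, 491, 389, 334], []⟩, ⟨[655, 368, 690, 65], 1, 3, [569, 944, 0, 372], []⟩, ⟨[946, 58, 476, 874], 1, 3, [487, 223, 920, 688], []⟩]),
  (23, []),
  (0, [⟨[2, 0, 0, 0, 0, 985, 0, 0, 0, 0, 0, 0, 0, 0, 0], 1, 3, [0, 0, 0, 157, 0, 0, 0, 0, 649, 0, 0, 0, 0, 113], []⟩]),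
  (0, [⟨[282], 1, 1, [1], [2, -5, 6, 0, 0, 0, 0, 1, 0, 0, 1, -1, 1]⟩, ⟨[493], 1, 1, [1], [-1, 0, -1, -5, 0, -1, 0, -1, 0, 0, 0, 0, 0, -1]⟩, ⟨[627], 1, 1, [1], [1, -5, 0, 0, 6, 1, 0, 0, 0, 1, 0, -1, 0, 0, 1]⟩, ⟨[985, 415, 686, 370], 1, 3, [754, 837, 432], []⟩, ⟨[892, 291, 219, 504], 1, 3, [468, 320, 790], []⟩, ⟨[136, 750, 236, 715], 1, 3, [316, 842, 607], []⟩]),
  (7, []),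
  (17, []),
  (19, []),
  (0, [⟨[328, 399, 706], 1, 3, [487, 509, 683], []⟩, ⟨[379, 892, 275, 648, 69, 14], 1, 3, [488, 117, 307, 826, 815, 29], []⟩, ⟨[379, 828, 674, 216, 561, 289], 1, 3, [89, 216, 433, 737, 265, 356], []⟩]),
  (0, [⟨[994], 1, 1, [1], [-2, -5, 0, 6, 0, 1, 0, 0, 1, 0, 0, -1, 0, 1]⟩, ⟨[63, 704], 1, 2, [269, 900], [4, -2, 13, 10, 0, -1, 1, 0, 0, 0, 1, 0, 2, 2]⟩, ⟨[83, 108, 565, 166], 1, 3, [340, 704, 969, 788], []⟩, ⟨[83, 685, 565, 143], 1, 3, [633, 246, 570, 177], []⟩, ⟨[356, 781, 652, 19], 1, 3, [55, 317, 0, 171], []⟩]),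
  (0, [⟨[868], 1, 1, [1], [1, 5, -5, -5, 0, 1, 0, 0, 0, 0, 0, 1, -1, -1]⟩, ⟨[636, 963], 1, 2, [33, 911], [-3, -2, -2, 5, 8, -1, 1, 1, 0, 0, -1, 0, 0, 1, 1]⟩, ⟨[636, 207], 1, 2, [959, 547], [-3, 1, 5, 4, 16, -1, 1, 0, -1, 1, -1, 0, 1, 1, 3]⟩, ⟨[736, 0, 0, 0, 0, 36, 0, 0, 0, 0], 1, 3, [781, 438, 544, 422, 753, 969, 772, 401, 553, 570], []⟩]),
  (0, [⟨[530, 0, 0, 0, 0], 1, 3, [0, 0, 0, 244], []⟩, ⟨[894, 0, 0, 0, 0], 1, 3, [0, 0, 0, 63], []⟩, ⟨[618, 0, 0, 0, 0], 1, 3, [0, 0, 0, 87], []⟩]),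
  (13, []),
  (0, [⟨[910, 0, 0, 0, 0], 1, 3, [0, 0, 0, 701], []⟩, ⟨[818, 0, 0, 0, 0, 121, 0, 0, 0, 0], 1, 3, [0, 0, 0, 800, 0, 0, 0, 0, 314], []⟩]),
  (0, [⟨[1014, 97, 514], 1, 3, [21, 99, 825], []⟩, ⟨[870, 962, 991, 320, 175, 527, 938, 551, 324, 907, 155, 519], 1, 3, [145, 793, 783, 8, 168, 514, 507, 464, 177, 864, 137, 556], []⟩]),
  (17, []),
  (0, [⟨[532, 675, 1012], 1, 3, [276, 246, 619], []⟩, ⟨[623, 173, 394, 209, 106, 476], 1, 3, [536, 1007, 496, 677, 413, 622], []⟩, ⟨[623, 472, 780, 775, 878, 590], 1, 3, [151, 823, 105, 180, 72, 811], []⟩]),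
  (7, []),
  (0, [⟨[387], 1, 1, [1], [0, 1, 8, 0, 0, 0, 1, 0, 0, 0, 0, 0, 1]⟩, ⟨[238, 944], 1, 2, [553, 570], [-1, -3, 5, 1, -4, -1, 0, 0, 1, 1, 0, 0, 1, 0, -1]⟩, ⟨[238, 767], 1, 2, [393, 717], [1, 0, -1, 8, 0, 2, 0, -1, 0, 0, 1, 0, 0, 1]⟩, ⟨[946, 0, 0, 0, 0, 774, 0, 0, 0, 0], 1, 3, [663, 939, 946, 669, 853, 52, 808, 195, 696, 866], []⟩]),
  (0, [⟨[157, 0, 0, 0, 0], 1, 3, [0, 0, 0, 519], []⟩, ⟨[680, 0, 0, 0, 0], 1, 3, [0, 0, 0, 285], []⟩, ⟨[214, 0, 0, 0, 0], 1, 3, [0, 0, 0, 440], []⟩]),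
  (7, []),
  (0, [⟨[539, 0, 0, 0, 0], 1, 3, [0, 0, 0, 423], []⟩, ⟨[187, 0, 0, 0, 0, 522, 0, 0, 0, 0], 1, 3, [0, 0, 0, 1044, 0, 0, 0, 0, 660], []⟩]),
  (0, [⟨[529, 480, 453], 1, 3, [1041, 499, 794], []⟩, ⟨[426, 1004, 595, 693, 443, 551, 1037, 65, 320, 94, 533, 610], 1, 3, [318, 771, 693, 811, 608, 283, 636, 698, 1009, 388, 718, 953], []⟩]),
  (11, []),
  (0, [⟨[635], 1, 1, [1], [2, -6, 5, -5, 0, -1, -1, 0, 0, 0, 0, -1, 1, -1]⟩, ⟨[222], 1, 1, [1], [-5, 0, 3, 0, 0, 0, 0, 0, 0, 0, -1]⟩, ⟨[408], 1, 1, [1], [-1, 3, -5, 0, 0, -1, 0, 0, 0, 0, 0, 0, -1]⟩, ⟨[857, 378], 1, 2, [293, 417], [0, -7, 6, 9, -5, 0, 1, 1, 1, 0, 0, -1, 1, 1, -1]⟩, ⟨[959, 117], 1, 2, [371, 551], [4, 6, -9, 2, -6, -1, 1, -1, -1, -1, 1, 1, -1, 0, -1]⟩, ⟨[959, 730],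 1, 2, [1011, 829], [-1, -6, -1, 4, 5, -1, -1, -1, 1, 0, 0, -1, 0, 0, 1]⟩, ⟨[857, 56], 1, 2, [542, 57], [3, 4, -1, -3, 0, 0, 2, -1, -1, 0, 0, 1, 0, -1]⟩, ⟨[300, 706], 1, 2, [1006, 88], [2, 0, 10, 5, 6, 0, 0, 0, 0, 1, 1, 0, 2, 1, 1]⟩, ⟨[300, 1024], 1, 2, [532, 475], [1, 1, -2, -6, 8, 1, 1, 1, -1, 0, 0, 0, 0, -1, 1]⟩]),
  (29, []),
  (13, []),
  (23, []),
  (0, [⟨[587, 811, 866], 1, 3, [260, 179, 808], []⟩, ⟨[987, 490, 252, 875, 896, 1003, 216, 577, 221, 203, 350, 221], 1, 3, [267, 401, 628, 325, 103, 94, 14, 210, 544, 666, 894, 43], []⟩]),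
  (0, [⟨[469, 4], 1, 2, [316, 933], [-1, -5, 12, 3, 0, -1, 0, 2, 0, 0, 0, -1, 2]⟩, ⟨[1068, 69], 1, 2, [129, 186], [7, 12, 0, 0, -5, -1, -1, 0, 0, 0, 1, 2, 0, 0, -1]⟩, ⟨[967, 775], 1, 2, [1087, 580], [-3, 6, 0, 0, 11, -3, 1, 0, 0, 1, 0, 1, 0, 0, 2]⟩, ⟨[726, 962], 1, 2, [1022, 481], [-9, 0, 5, -8, 11, -2, 0, 0, 0, 1, -2, 0, 1, -1, 2]⟩, ⟨[43, 372], 1, 2, [719, 2], [7, -3, -5, 11, -5, 0, -1, 0, 1, 0, 2, -1, -1, 2, -1]⟩, ⟨[237, 0, 0, 0, 0], 1, 3, [0, 0, 0, 127], []⟩]),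
  (0, [⟨[351], 1, 1, [1], [1, -8, 5, 0, 0, 1, 0, 0, 0, 0, 0, -1, 1]⟩, ⟨[1002], 1, 1, [1], [5, -1, 5, -5, 0, 0, -1, 0, 0, 0, 1, 0, 1, -1]⟩, ⟨[550], 1, 1, [1], [2, -5, -6, 0, -5, -1, 0, -1, 0, 0, 0, -1, -1, 0, -1]⟩, ⟨[738, 367, 261, 543], 1, 3, [232, 847, 0, 832], []⟩, ⟨[952, 494, 463, 91], 1, 3, [466, 127, 0, 214], []⟩, ⟨[227, 994, 308, 742], 1, 3, [736, 382, 0, 486], []⟩]),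
  (0, [⟨[1049], 1, 1, [1], [2, 5, 0, -5, 0, 0, 0, 0, 0, 0, 1, 1, 0, -1]⟩, ⟨[408, 1030], 1, 2, [764, 514], [1, -4, 4, 6, 5, 1, 1, -1, 1, 0, 0, -1, 1, 1, 1]⟩, ⟨[280, 156, 869, 874], 1, 3, [670, 965, 666, 820], []⟩, ⟨[280, 1030, 869, 290], 1, 3, [744, 671, 70, 563], []⟩, ⟨[1064, 892, 987, 48], 1, 3, [730, 838, 605], []⟩]),
  (7, []),
  (0, [⟨[65], 1, 1, [1], [2, -1, 0, 11, 0, -1, -1, 0, 1, 0, 0, 0, 0, 2]⟩, ⟨[559, 59], 1, 2, [661, 688], [-5, -4, 5, -8, 13, 0, 1, 0, 0, 0, -1, -1, 1, -1, 2]⟩, ⟨[771, 819, 357, 712], 1, 3, [13, 1065, 1088, 305], []⟩, ⟨[327, 22, 187, 1038], 1, 3, [952, 371, 0, 171], []⟩, ⟨[771, 175, 357, 332], 1, 3, [832, 475, 857, 578], []⟩]),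
  (0, [⟨[919], 1, 1, [1], [-1, 3, -1, 0, 5, -1, 0, -1, 0, 0, 0, 0, 0, 0, 1]⟩, ⟨[497, 809], 1, 2, [475, 188], [1, 2, -11, 0, 6, 1, -1, -1, 0, 1, 0, 0, -2, 0, 1]⟩, ⟨[497, 490], 1, 2, [920, 381], [0, -2, -10, 5, 16, 0, 1, 0, 0, 1, 0, 0, -2, 1, 3]⟩, ⟨[709, 0, 0, 0, 0, 1048, 0, 0, 0, 0], 1, 3, [142, 337, 64, 942, 689, 675, 846, 824, 766, 850], []⟩]),
  (11, []),
  (0, [⟨[1075, 402, 1098], 1, 3, [587, 530, 336], []⟩, ⟨[266, 312, 366, 377, 244, 55, 806, 317, 514, 954, 354, 19], 1, 3, [192, 471, 424, 570, 1091, 299, 588, 514, 534, 17, 918, 43], []⟩]),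
  (19, []),
  (0, [⟨[942, 1029, 124], 1, 3, [841, 611, 73], []⟩, ⟨[546, 219, 372, 202, 521, 815, 280, 621, 690, 140, 440, 999], 1, 3, [507, 232, 1065, 738, 692, 526, 832, 939, 1105, 112, 1025, 617], []⟩]),
  (7, []),
  (0, [⟨[1037, 660, 697], 1, 3, [664, 629, 330], []⟩, ⟨[568, 529, 954, 625, 971, 571], 1, 3, [301, 989, 647, 360, 697, 874], []⟩, ⟨[568, 846, 792, 1113, 1078, 990], 1, 3, [1113, 546, 309, 432, 789, 147], []⟩]),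
  (11, []),
  (17, []),
  (7, []),
  (31, []),
  (0, [⟨[226, 0, 0, 0, 0], 1, 3, [0, 0, 0, 760], []⟩, ⟨[713, 0, 0, 0, 0, 925, 0, 0, 0, 0], 1, 3, [0, 0, 0, 378, 0, 0, 0, 0, 45], []⟩]),
  (0, [⟨[478, 174, 554], 1, 3, [104, 401, 1147], []⟩, ⟨[796, 815, 696, 965, 361, 416, 110, 359, 558, 727, 761, 599], 1, 3, [421, 449, 524, 284, 79, 592, 794, 60, 1012, 184, 1145, 810], []⟩]),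
  (13, []),
  (19, []),
  (0, [⟨[284], 1, 1, [1], [4, 1, 0, 0, -5, 2, 1, 0, 0, 0, 1, 0, 0, 0, -1]⟩, ⟨[645, 24], 1, 2, [199, 468], [3, -2, -8, 7, 6, 0, 1, 0, -1, 1, 0, 0, -1, 1, 1]⟩, ⟨[329, 287, 978, 997], 1, 3, [865, 810, 903, 412], []⟩, ⟨[329, 74, 978, 142], 1, 3, [699, 338, 1144, 127], []⟩, ⟨[191, 144, 754, 879], 1, 3, [1014, 1142, 0, 415], []⟩]),
  (7, []),
  (0, [⟨[2, 0, 0, 0, 0, 1165, 0, 0, 0, 0, 0, 0, 0, 0, 0], 1, 3, [0, 0, 0, 796, 0, 0, 0, 0, 508, 0, 0, 0, 0, 685], []⟩])] (by decide +kernel)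

theorem ra {F : Type*} [Field F] [NumberField F] {α : NumberField.RingOfIntegers F} (h : Gen α fl) :
    Range F 30 1373170 0 1172 :=
  have hs : splitOK fl m 2 ρ = true := by decide +kernel
  ((((a0.range h hs).trans (a1.range h hs)).trans (a2.range h hs)).trans (a3.range h hs)).trans (a4.range h hs)

end Pool.Agent.Lib.MP_ab8df0_nt.A.N3
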