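import Pool.Agent.Lib.MP_ab8df0_nt.A.N3.Main
import Pool.Agent.Lib.MP_ab8df0_nt.A.Twr

/-! The same in terms of a uniformizer at the prime above two. -/

namespace Pool.Agent.Lib.MP_ab8df0_nt.A.N3

open Pool.Agent.Lib.MP_ab8df0_nt.A

open NumberField IsDedekindDomain

variable {F : Type*} [Field F] [NumberField F] {α : 𝓞 F}

/-- Lower coefficients of the Eisenstein polynomial. -/
def fb : List ℤ := [-2, 0, 0, 0, 0, 6, 0, 0, 0, 0, 0, 0, 0, 0, 0]

instance : Fact (Irreducible (mq fb)) := ⟨irr_of_eis Nat.prime_two (by decide +kernel)⟩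

/-- The generators. -/
def gb : Fin 13 → List ℤ := g

theorem SUb (h : Gen α fb) {ξ : F} (h0 : ξ ≠ 0)
    (hξ : ∀ v : HeightOneSpectrum (𝓞 F), ((30 : ℕ) : 𝓞 F) ∉ v.asIdeal →
      ∃ k : ℤ, v.valuation F ξ = WithZero.exp (2 * k)) :
    ∃ (e : Fin 13 → Bool) (u : F), ξ = (∏ i, if e i then ev (α : F) (gb i) else 1) * u ^ 2 :=
  SU h h0 hξ

theorem re0 (h : Gen α fb) : ∃ φ : F →+* ℝ, ((799902320912268159563653489648 : ℤ) : ℝ) / ((10 ^ 30 : ℕ) : ℝ) < φ α ∧
    φ α < ((799902320912268159563653489649 : ℤ) : ℝ) / ((10 ^ 30 : ℕ) : ℝ) := h.real (by decide +kernel)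

/-- The common denominator. -/
def den : ℤ := 3

/-- Numerator of a tower element. -/
def th : List ℤ := [4, 0, 0, 0, 0, -1, 0, 0, 0, 0, 1]

/-- Numerator of a tower element. -/
def al : List ℤ := [0, 3]

theorem tw0 {K : Type*} [Field K] [CharZero K] {a : K} (h : a ^ fb.length + ev a fb = 0) :
    (ev a th / den) ^ 3 = 2 := by
  have := ex_zero_div h (D := den) (ls := [th, al])
    (e := (.add (.pow (.v 0) 3) (.neg (.c 2)))) (by decide +kernel)
  simp only [List.map, Ex.evR, Ex.evR_pow, nth0] at this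
  push_cast at this
  linear_combination this

theorem tw1 {K : Type*} [Field K] [CharZero K] {a : K} (h : a ^ fb.length + ev a fb = 0) :
    a ^ 5 = (((ev a th / den) - 1) ^ 1 * (ev a th / den)) := by
  have := ex_zero_div h (D := den) (ls := [th, al])
    (e := (.add (.pow (.v 1) 5) (.neg (.mul (.pow (.add (.v 0) (.neg (.c 1))) 1) (.v 0))))) (by decide +kernel)
  simp only [List.map, Ex.evR, Ex.evR_pow, nth0, nth1] at this
  rw [show ev a al / den = a by simp [al, den]] at this
  push_cast at this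
  linear_combination this

end Pool.Agent.Lib.MP_ab8df0_nt.A.N3
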